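import Pool.Agent.Lib.MP_17a322_ntLF.N.N3

/-! Leaf N4: the norm of the content of a vector is principal outside `S2`, which depends on `K` only.

PROOF.  There is `c : 𝓞 L`, `c ≠ 0`, such that `c x i = x' i` with `x' i ∈ 𝓞 L` for all `i` (`IsLocalization.exist_integer_multiples_of_finset
(nonZeroDivisors (𝓞 L))` for the finite set of the `x i`, or a common denominator from `IsLocalization.exist_integer_multiples_of_finite`).
`J = span (range x') ≠ ⊥`, `R = relNorm (𝓞 K) J ≠ ⊥` (`Ideal.relNorm_eq_bot_iff`).  `R` is finitely generated: `R = span (range g)` with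
`g : Fin m → 𝓞 K` (`IsNoetherian.noetherian R`, `Submodule.fg_iff_exists_fin_generating_family`), `g ≠ 0`.  `hS2` for `fun k => (g k : K)`
gives `l ≠ 0` with `⨆ k, v (l * g k) = 1` for `v ∉ S2`; `⨆ k, v (l * g k) = v l * ⨆ k, v (g k)` (`map_mul`,
`Real.mul_iSup_of_nonneg`).  For `v ∉ S2`, `P = v.maximalIdeal.asIdeal`, `q = absNorm P`: `sup_mult v g`:
`(⨆ k, v (g k)) = (q ^ multiplicity P R)⁻¹`, `rel_mult v J`: `q ^ multiplicity P R = ∏ w ∈ fib L v, absNorm Q_w ^ multiplicity Q_w J`,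
and `sup_mult w x'`: `absNorm Q_w ^ multiplicity Q_w J = (⨆ i, w (x' i))⁻¹`, `⨆ i, w (x' i) = w c * ⨆ i, w (x i)`.  So
`(v l)⁻¹ = ⨆ k, v (g k) = (∏ w ∈ fib L v, w c) * ∏ w ∈ fib L v, ⨆ i, w (x i)` and `∏ w ∈ fib L v, w c = v (Algebra.norm K c)` by
`norm_place`.  Take `α = (l * Algebra.norm K c)⁻¹`.
-/

namespace LVN

open NumberField

theorem alpha {K : Type} [Field K] [NumberField K] (S2 : Finset (FinitePlace K))
    (hS2 : ∀ (ι : Type) [Fintype ι] (x : ι → K), x ≠ 0 →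
      ∃ l : K, l ≠ 0 ∧ ∀ v : FinitePlace K, v ∉ S2 → (⨆ i, v (l * x i)) = 1)
    {L : Type} [Field L] [NumberField L] [Algebra K L] {ι : Type} [Fintype ι] (x : ι → L) (hx : x ≠ 0) :
    ∃ α : K, α ≠ 0 ∧ ∀ v : FinitePlace K, v ∉ S2 → v α = ∏ w ∈ fib L v, ⨆ i, w (x i) := by
  obtain ⟨c, hc⟩ := IsLocalization.exist_integer_multiples_of_finite (nonZeroDivisors (𝓞 L)) x
  choose x' hx' using hc
  have hc0 : ((c : 𝓞 L) : L) ≠ 0 := by
    have h1 : (c : 𝓞 L) ≠ 0 := nonZeroDivisors.ne_zero c.2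
    intro h2
    exact h1 (RingOfIntegers.coe_injective (h2.trans (map_zero (algebraMap (𝓞 L) L)).symm))
  have hxx : ∀ i, ((x' i : 𝓞 L) : L) = ((c : 𝓞 L) : L) * x i := fun i => by
    have h1 := hx' i
    rw [Algebra.smul_def] at h1
    exact h1
  have hx0 : x' ≠ 0 := by
    intro h
    apply hx
    funext i
    have h1 := hxx i
    rw [h] at h1
    have h2 : ((0 : 𝓞 L) : L) = 0 := map_zero (algebraMap (𝓞 L) L)
    rw [Pi.zero_apply, h2] at h1
    exact (mul_eq_zero.1 h1.symm).resolve_left hc0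
  have hJ : Ideal.span (Set.range x') ≠ ⊥ := by
    intro h
    apply hx0
    funext i
    exact Ideal.span_eq_bot.1 h _ ⟨i, rfl⟩
  have hR : Ideal.relNorm (𝓞 K) (Ideal.span (Set.range x')) ≠ ⊥ := by
    rwa [ne_eq, Ideal.relNorm_eq_bot_iff]
  obtain ⟨m, g, hg⟩ := Submodule.fg_iff_exists_fin_generating_family.1
    (IsNoetherian.noetherian (Ideal.relNorm (𝓞 K) (Ideal.span (Set.range x'))))
  have hg' : Ideal.span (Set.range g) = Ideal.relNorm (𝓞 K) (Ideal.span (Set.range x')) := hg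
  have hg0 : g ≠ 0 := by
    intro h
    apply hR
    rw [← hg', h, Ideal.span_eq_bot]
    rintro _ ⟨i, rfl⟩
    rfl
  have hgK : (fun k => ((g k : 𝓞 K) : K)) ≠ 0 := by
    intro h
    apply hg0
    funext k
    exact RingOfIntegers.coe_injective ((congrFun h k).trans (map_zero (algebraMap (𝓞 K) K)).symm)
  obtain ⟨l, hl, hl1⟩ := hS2 (Fin m) (fun k => ((g k : 𝓞 K) : K)) hgK
  have hn : Algebra.norm K ((c : 𝓞 L) : L) ≠ 0 := Algebra.norm_ne_zero_iff.2 hc0
  refine ⟨(l * Algebra.norm K ((c : 𝓞 L) : L))⁻¹, inv_ne_zero (mul_ne_zero hl hn), fun v hv => ?_⟩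
  have h1 : v l * (⨆ k, v ((g k : 𝓞 K) : K)) = 1 := by
    rw [Real.mul_iSup_of_nonneg (apply_nonneg v l), ← hl1 v hv]
    simp only [map_mul]
  have h2 := sup_mult v g hg0
  rw [hg', rel_mult v _ hJ] at h2
  have h3 : v l = ∏ w ∈ fib L v,
      (Ideal.absNorm w.maximalIdeal.asIdeal : ℝ) ^ multiplicity w.maximalIdeal.asIdeal
        (Ideal.span (Set.range x')) := by
    have h4 : (⨆ k, v ((g k : 𝓞 K) : K)) ≠ 0 := right_ne_zero_of_mul_eq_one h1
    apply mul_right_cancel₀ h4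
    rw [h1, mul_comm, h2]
  have h5 : ∀ w ∈ fib L v, (w ((c : 𝓞 L) : L) * ⨆ i, w (x i)) *
      (Ideal.absNorm w.maximalIdeal.asIdeal : ℝ) ^ multiplicity w.maximalIdeal.asIdeal
        (Ideal.span (Set.range x')) = 1 := fun w _ => by
    rw [← sup_mult w x' hx0, Real.mul_iSup_of_nonneg (apply_nonneg w _)]
    simp only [hxx, map_mul]
  have h6 := Finset.prod_congr rfl h5
  rw [Finset.prod_const_one, Finset.prod_mul_distrib, Finset.prod_mul_distrib, ← h3,
    ← norm_place v _ hc0] at h6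
  rw [map_inv₀, map_mul]
  refine (eq_inv_of_mul_eq_one_left ?_).symm
  rw [← h6]
  ring

end LVN
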