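import Mathlib

/-! Leaf NH: the height as a sum of local heights of a divisor of degree `n` whose equation has the value `y` at `x`.

PROOF.  Copy the proof of `LVX.height_eq` in `MP_17a322_ntLX/F5.lean` (with its private lemmas `F5_sup_pos`, `F5_fin`; it is in the package): it uses
only `x ≠ 0`, `Dv a x ≠ 0` and the product formula; write `n` for `dg j d` and `y` for `Dv a x`.
-/

namespace LVN

open NumberField

/-- `n log |x|_v - log |y|_v` -/
noncomputable def lm {K σ : Type} [Field K] (v : AbsoluteValue K ℝ) (n : ℕ) (y : K) (x : σ → K) : ℝ :=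
  (n : ℝ) * Real.log (⨆ w, v (x w)) - Real.log (v y)

private theorem NH_sup_pos {ι K : Type} [Finite ι] [Field K] (v : AbsoluteValue K ℝ) {x : ι → K} (hx : x ≠ 0) :
    0 < ⨆ w, v (x w) := by
  obtain ⟨w, hw⟩ := Function.ne_iff.1 hx
  exact lt_of_lt_of_le (v.pos hw) (le_ciSup (Set.finite_range fun w => v (x w)).bddAbove w)

private theorem NH_fin {K : Type} [Field K] [NumberField K] {ι : Type} [Finite ι] {x : ι → K} (hx : x ≠ 0) :
    (Function.mulSupport fun v : FinitePlace K => ⨆ w, v (x w)).Finite := by
  have h1 : (⋃ w : {w : ι // x w ≠ 0}, Function.mulSupport fun v : FinitePlace K => v (x w.1)).Finite :=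
    Set.finite_iUnion fun w => FinitePlace.hasFiniteMulSupport w.2
  refine h1.subset fun v hv => ?_
  by_contra hcon
  rw [Set.mem_iUnion] at hcon
  push Not at hcon
  have h2 : ∀ w, x w ≠ 0 → v (x w) = 1 := fun w hw => by
    by_contra h
    exact hcon ⟨w, hw⟩ h
  rw [Function.mem_mulSupport] at hv
  refine hv ?_
  obtain ⟨w, hw⟩ := Function.ne_iff.1 hx
  have : Nonempty ι := ⟨w⟩
  refine le_antisymm (ciSup_le fun w' => ?_) ?_
  · rcases eq_or_ne (x w') 0 with h | h
    · rw [h, map_zero]
      exact zero_le_one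
    · exact (h2 w' h).le
  · rw [← h2 w hw]
    exact le_ciSup (Set.finite_range fun w => v (x w)).bddAbove w

theorem height_lm {K σ : Type} [Field K] [NumberField K] [Fintype σ] (n : ℕ) {x : σ → K} (hx : x ≠ 0) {y : K} (hy : y ≠ 0) :
    (Function.support fun v : FinitePlace K => lm v.1 n y x).Finite ∧
      (n : ℝ) * Height.logHeight x =
        ∑ v : InfinitePlace K, (v.mult : ℝ) * lm v.1 n y x + ∑ᶠ v : FinitePlace K, lm v.1 n y x := by
  have hM : ∀ v : FinitePlace K, 0 < ⨆ w, v (x w) := fun v => NH_sup_pos v.1 hx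
  have hM' : ∀ v : InfinitePlace K, 0 < ⨆ w, v (x w) := fun v => NH_sup_pos v.1 hx
  have hyv : ∀ v : FinitePlace K, 0 < v y := fun v => v.1.pos hy
  have hyv' : ∀ v : InfinitePlace K, 0 < v y := fun v => v.1.pos hy
  have hlam : ∀ v : FinitePlace K, lm v.1 n y x = (n : ℝ) * Real.log (⨆ w, v (x w)) - Real.log (v y) :=
    fun v => rfl
  have hlam' : ∀ v : InfinitePlace K, lm v.1 n y x = (n : ℝ) * Real.log (⨆ w, v (x w)) - Real.log (v y) :=
    fun v => rfl
  have s1 : (Function.support fun v : FinitePlace K => (n : ℝ) * Real.log (⨆ w, v (x w))).Finite := by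
    refine (NH_fin hx).subset fun v hv => ?_
    rw [Function.mem_support] at hv
    rw [Function.mem_mulSupport]
    intro h
    exact hv (by rw [h, Real.log_one, mul_zero])
  have s2 : (Function.support fun v : FinitePlace K => Real.log (v y)).Finite := by
    refine (FinitePlace.hasFiniteMulSupport hy).subset fun v hv => ?_
    rw [Function.mem_support] at hv
    rw [Function.mem_mulSupport]
    intro h
    exact hv (by rw [h, Real.log_one])
  refine ⟨(s1.union s2).subset fun v hv => ?_, ?_⟩
  · rw [Function.mem_support, hlam v] at hv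
    by_contra hcon
    rw [Set.mem_union, Function.mem_support, Function.mem_support] at hcon
    push Not at hcon
    exact hv (by rw [hcon.1, hcon.2, sub_zero])
  · have h1 : ∑ᶠ v : FinitePlace K, lm v.1 n y x =
        (n : ℝ) * (∑ᶠ v : FinitePlace K, Real.log (⨆ w, v (x w))) - ∑ᶠ v : FinitePlace K, Real.log (v y) := by
      rw [mul_finsum, ← finsum_sub_distrib s1 s2]
      exact finsum_congr hlam
    have h2 : Height.logHeight x = ∑ v : InfinitePlace K, (v.mult : ℝ) * Real.log (⨆ w, v (x w)) +
        ∑ᶠ v : FinitePlace K, Real.log (⨆ w, v (x w)) := by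
      rw [Height.logHeight_eq_log_mulHeight, NumberField.mulHeight_eq hx, Real.log_mul, Real.log_prod, Real.log_finprod hM]
      · congr 1
        exact Finset.sum_congr rfl fun v _ => Real.log_pow _ _
      · intro v _
        exact (pow_pos (hM' v) _).ne'
      · exact (Finset.prod_pos fun v _ => pow_pos (hM' v) _).ne'
      · exact (finprod_induction (fun r : ℝ => 0 < r) one_pos (fun _ _ h h' => mul_pos h h') hM).ne'
    have h3 : 0 = ∑ v : InfinitePlace K, (v.mult : ℝ) * Real.log (v y) +
        ∑ᶠ v : FinitePlace K, Real.log (v y) := by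
      have h4 := congrArg Real.log (NumberField.prod_abs_eq_one hy)
      rw [Real.log_one, Real.log_mul, Real.log_prod, Real.log_finprod hyv] at h4
      · rw [← h4]
        congr 1
        exact Finset.sum_congr rfl fun v _ => Real.log_pow _ _
      · intro v _
        exact (pow_pos (hyv' v) _).ne'
      · exact (Finset.prod_pos fun v _ => pow_pos (hyv' v) _).ne'
      · exact (finprod_induction (fun r : ℝ => 0 < r) one_pos (fun _ _ h h' => mul_pos h h') hyv).ne'
    have h5 : ∑ v : InfinitePlace K, (v.mult : ℝ) * lm v.1 n y x =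
        (n : ℝ) * (∑ v : InfinitePlace K, (v.mult : ℝ) * Real.log (⨆ w, v (x w))) -
          ∑ v : InfinitePlace K, (v.mult : ℝ) * Real.log (v y) := by
      rw [Finset.mul_sum, ← Finset.sum_sub_distrib]
      refine Finset.sum_congr rfl fun v _ => ?_
      rw [hlam' v]
      ring
    rw [h1, h2, h5]
    linarith

end LVN
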