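import Pool.Agent.Lib.MP_17a322_ntLF.N.N3
import Pool.Agent.Lib.MP_17a322_ntLF.N.NH

/-! Leaf NC: the components of an almost integral point over `L`, after the norm to `K`.  Model: `MP_17a322_ntLX/F6.lean` (the case `L = K`).

PROOF.  Let `N = ∑ w, n w`, `y = ∏ w, c w ≠ 0`.  For a finite place `v` of `L` put `M v = ⨆ i, v (x i) > 0` and
`g v = n w * log (M v) - log (v (c w))`.  (1) `0 ≤ g v`: `hv` (`Real.log_le_log`, `Real.log_pow`).  (2) `g v ≤ lm v.1 N y x`: `lm v.1 N y x =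
∑ w', (n w' * log (M v) - log (v (c w')))` (`map_prod`, `Real.log_prod`), a sum of nonnegative terms, one of which is `g v`
(`Finset.single_le_sum`); in particular `0 ≤ lm v.1 N y x`.
(3) For `v ∉ S0`, with `Y = Algebra.norm K (c w) / α ^ n w`: `v Y = (∏ w' ∈ fib L v, w' (c w)) / (∏ w' ∈ fib L v, M w') ^ n w`
(`norm_place`, `h1`, `map_div₀`, `map_pow`), so `- log (v Y) = ∑ w' ∈ fib L v, g w' ≥ 0`; in particular `v Y ≤ 1` (as `v Y > 0`).
(4) The sum.  `height_lm N hx hy` says that `lm` has finite support on the finite places of `L` and, with `hB`,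
`∑ᶠ v, lm v ≤ ∑ v ∈ S, lm v + B`.  Let `W = support ∪ S` (a finite set of finite places of `L`).  The function
`f v = if v ∈ S0 then 0 else - log (v Y)` vanishes outside the image `I` of `W` under `bel K` (for `v ∉ S0`, `v ∉ I`:
`f v = ∑ w' ∈ fib L v, g w'` and `0 ≤ g w' ≤ lm w' = 0` for `w' ∈ fib L v`, which is not in `W`), so
`∑ᶠ v, f v = ∑ v ∈ I, f v` (`finsum_eq_sum_of_support_subset`).  For `v ∈ I`, `v ∉ S0`:
`f v = ∑ w' ∈ fib L v, g w' ≤ ∑ w' ∈ W with bel K w' = v, lm w'` (terms outside `W` vanish), and for such `w'`: `w' ∉ S` by `hS`.  Hence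
`∑ v ∈ I, f v ≤ ∑ v ∈ I, ∑ w' ∈ W with bel K w' = v, (if w' ∈ S then 0 else lm w') = ∑ w' ∈ W, (if w' ∈ S then 0 else lm w')`
(`Finset.sum_fiberwise_of_maps_to`) `= ∑ w' ∈ W, lm w' - ∑ w' ∈ S, lm w' = ∑ᶠ w', lm w' - ∑ w' ∈ S, lm w' ≤ B`.
-/

namespace LVN

open NumberField

private theorem NC_sup {L : Type} [Field L] [NumberField L] {σ : Type} [Fintype σ] {x : σ → L} (hx : x ≠ 0)
    (v : FinitePlace L) : 0 < ⨆ i, v (x i) := by
  obtain ⟨i, hi⟩ := Function.ne_iff.1 hx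
  exact lt_of_lt_of_le (FinitePlace.pos_iff.2 hi)
    (le_ciSup (f := fun i => v (x i)) (Set.finite_range _).bddAbove i)

private theorem NC_g {L : Type} [Field L] [NumberField L] {σ : Type} [Fintype σ] {x : σ → L} (_ : x ≠ 0)
    (v : FinitePlace L) {n : ℕ} {c : L} (hc : c ≠ 0) (h : v c ≤ (⨆ i, v (x i)) ^ n) :
    0 ≤ (n : ℝ) * Real.log (⨆ i, v (x i)) - Real.log (v c) := by
  have h1 := Real.log_le_log (FinitePlace.pos_iff.2 hc) h
  rw [Real.log_pow] at h1
  linarith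

private theorem NC_lm {L : Type} [Field L] [NumberField L] {σ W : Type} [Fintype σ] [Fintype W]
    {x : σ → L} (n : W → ℕ) (c : W → L) (hc : ∀ w, c w ≠ 0) (v : FinitePlace L) :
    lm v.1 (∑ w, n w) (∏ w, c w) x = ∑ w, ((n w : ℝ) * Real.log (⨆ i, v (x i)) - Real.log (v (c w))) := by
  have h4 : v.1 (∏ w, c w) = ∏ w, v (c w) := map_prod v.1 _ _
  have h5 : (⨆ i, v.1 (x i)) = ⨆ i, v (x i) := rfl
  rw [lm, h4, h5, Real.log_prod, Finset.sum_sub_distrib, ← Finset.sum_mul, Nat.cast_sum]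
  intro w _
  exact (FinitePlace.pos_iff.2 (hc w)).ne'

open Classical in
theorem comps {K L : Type} [Field K] [NumberField K] [Field L] [NumberField L] [Algebra K L]
    {S : Finset (FinitePlace L)} {S0 : Finset (FinitePlace K)} (hS : ∀ w ∈ S, bel K w ∈ S0) {σ W : Type} [Fintype σ] [Fintype W]
    {x : σ → L} (hx : x ≠ 0) (n : W → ℕ) (c : W → L) (hc : ∀ w, c w ≠ 0)
    (hv : ∀ (v : FinitePlace L) (w : W), v (c w) ≤ (⨆ i, v (x i)) ^ n w) {α : K} (hα : α ≠ 0)
    (h1 : ∀ v : FinitePlace K, v ∉ S0 → v α = ∏ w ∈ fib L v, ⨆ i, w (x i)) {B : ℝ}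
    (hB : ((∑ w, n w : ℕ) : ℝ) * Height.logHeight x ≤
      (∑ v : InfinitePlace L, (v.mult : ℝ) * lm v.1 (∑ w, n w) (∏ w, c w) x +
        ∑ v ∈ S, lm v.1 (∑ w, n w) (∏ w, c w) x) + B) (w : W) :
    (∀ v : FinitePlace K, v ∉ S0 → v (Algebra.norm K (c w) / α ^ n w) ≤ 1) ∧
      (∑ᶠ v : FinitePlace K, if v ∈ S0 then 0 else - Real.log (v (Algebra.norm K (c w) / α ^ n w))) ≤ B := by
  have hM : ∀ v : FinitePlace L, 0 < ⨆ i, v (x i) := NC_sup hx
  have hy : (∏ w, c w) ≠ 0 := Finset.prod_ne_zero_iff.2 fun w _ => hc w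
  obtain ⟨hfin, hH⟩ := height_lm (∑ w, n w) hx hy
  obtain ⟨g, hg⟩ : ∃ g : FinitePlace L → ℝ, ∀ v, g v = (n w : ℝ) * Real.log (⨆ i, v (x i)) - Real.log (v (c w)) :=
    ⟨_, fun _ => rfl⟩
  obtain ⟨l, hl⟩ : ∃ l : FinitePlace L → ℝ, ∀ v, l v = lm v.1 (∑ w, n w) (∏ w, c w) x := ⟨_, fun _ => rfl⟩
  have hg0 : ∀ v, 0 ≤ g v := fun v => by
    rw [hg]
    exact NC_g hx v (hc w) (hv v w)
  have hgl : ∀ v, g v ≤ l v := fun v => by
    rw [hl, NC_lm n c hc v, hg]
    exact Finset.single_le_sum (f := fun w => (n w : ℝ) * Real.log (⨆ i, v (x i)) - Real.log (v (c w)))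
      (fun w' _ => NC_g hx v (hc w') (hv v w')) (Finset.mem_univ w)
  have hl0 : ∀ v, 0 ≤ l v := fun v => (hg0 v).trans (hgl v)
  have hY0 : ∀ v : FinitePlace K, 0 < v (Algebra.norm K (c w) / α ^ n w) := fun v =>
    FinitePlace.pos_iff.2 (div_ne_zero (Algebra.norm_ne_zero_iff.2 (hc w)) (pow_ne_zero _ hα))
  have hY : ∀ v : FinitePlace K, v ∉ S0 →
      - Real.log (v (Algebra.norm K (c w) / α ^ n w)) = ∑ w' ∈ fib L v, g w' := by
    intro v hv0
    have e1 : v (Algebra.norm K (c w) / α ^ n w) =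
        (∏ w' ∈ fib L v, w' (c w)) / (∏ w' ∈ fib L v, ⨆ i, w' (x i)) ^ n w := by
      rw [map_div₀, map_pow, norm_place v (c w) (hc w), h1 v hv0]
    have e2 : ∀ w' ∈ fib L v, w' (c w) ≠ 0 := fun w' _ => (FinitePlace.pos_iff.2 (hc w)).ne'
    have e3 : ∀ w' ∈ fib L v, (⨆ i, w' (x i)) ≠ 0 := fun w' _ => (hM w').ne'
    rw [e1, Real.log_div (Finset.prod_ne_zero_iff.2 e2) (pow_ne_zero _ (Finset.prod_ne_zero_iff.2 e3)),
      Real.log_pow, Real.log_prod e2, Real.log_prod e3, neg_sub, Finset.mul_sum, ← Finset.sum_sub_distrib]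
    exact Finset.sum_congr rfl fun w' _ => (hg w').symm
  refine ⟨fun v hv0 => ?_, ?_⟩
  · have e1 := hY v hv0
    have e2 : 0 ≤ ∑ w' ∈ fib L v, g w' := Finset.sum_nonneg fun w' _ => hg0 w'
    have e3 : Real.log (v (Algebra.norm K (c w) / α ^ n w)) ≤ 0 := by linarith
    by_contra hcon
    exact absurd e3 (not_le.2 (Real.log_pos (not_le.1 hcon)))
  obtain ⟨f, hf⟩ : ∃ f : FinitePlace K → ℝ, ∀ v, f v =
      if v ∈ S0 then 0 else - Real.log (v (Algebra.norm K (c w) / α ^ n w)) := ⟨_, fun _ => rfl⟩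
  have hf' : (∑ᶠ v : FinitePlace K, if v ∈ S0 then 0 else - Real.log (v (Algebra.norm K (c w) / α ^ n w))) =
      ∑ᶠ v, f v := finsum_congr fun v => (hf v).symm
  rw [hf']
  have hf0 : ∀ v, v ∈ S0 → f v = 0 := fun v h => by rw [hf, if_pos h]
  have hf1 : ∀ v, v ∉ S0 → f v = ∑ w' ∈ fib L v, g w' := fun v h => by rw [hf, if_neg h, hY v h]
  obtain ⟨W0, hW0⟩ : ∃ W0 : Finset (FinitePlace L), W0 = hfin.toFinset ∪ S := ⟨_, rfl⟩
  have hout : ∀ w', w' ∉ W0 → l w' = 0 := by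
    intro w' h
    by_contra h2
    refine h ?_
    rw [hW0, Finset.mem_union, Set.Finite.mem_toFinset]
    left
    rw [hl] at h2
    exact h2
  have hs2 : ∑ᶠ v : FinitePlace K, f v = ∑ v ∈ W0.image (bel K), f v := by
    refine finsum_eq_sum_of_support_subset _ fun v hv' => ?_
    by_contra h
    refine hv' ?_
    by_cases h2 : v ∈ S0
    · exact hf0 v h2
    · rw [hf1 v h2]
      refine Finset.sum_eq_zero fun w' hw' => ?_
      have h3 : w' ∉ W0 := by
        intro h4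
        refine h ?_
        rw [Finset.mem_coe, Finset.mem_image]
        exact ⟨w', h4, (mem_fib L v w').1 hw'⟩
      exact le_antisymm ((hgl w').trans (hout w' h3).le) (hg0 w')
  have hle : ∀ v ∈ W0.image (bel K), f v ≤ ∑ w' ∈ W0.filter (fun w' => bel K w' = v), if w' ∈ S then 0 else l w' := by
    intro v _
    by_cases h2 : v ∈ S0
    · rw [hf0 v h2]
      refine Finset.sum_nonneg fun w' _ => ?_
      split_ifs
      · exact le_rfl
      · exact hl0 w'
    · rw [hf1 v h2]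
      have h3 : ∑ w' ∈ W0.filter (fun w' => bel K w' = v), (if w' ∈ S then 0 else l w') =
          ∑ w' ∈ fib L v, l w' := by
        have h4 : ∑ w' ∈ W0.filter (fun w' => bel K w' = v), (if w' ∈ S then 0 else l w') =
            ∑ w' ∈ W0.filter (fun w' => bel K w' = v), l w' := by
          refine Finset.sum_congr rfl fun w' hw' => ?_
          rw [if_neg]
          intro h5
          have h6 := hS w' h5
          rw [(Finset.mem_filter.1 hw').2] at h6
          exact h2 h6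
        rw [h4]
        refine Finset.sum_subset (fun w' hw' => (mem_fib L v w').2 (Finset.mem_filter.1 hw').2) fun w' hw' h5 => ?_
        refine hout w' fun h6 => h5 ?_
        exact Finset.mem_filter.2 ⟨h6, (mem_fib L v w').1 hw'⟩
      rw [h3]
      exact Finset.sum_le_sum fun w' _ => hgl w'
  have hs3 : ∑ v ∈ W0.image (bel K), f v ≤ ∑ w' ∈ W0, if w' ∈ S then 0 else l w' := by
    refine (Finset.sum_le_sum hle).trans (le_of_eq ?_)
    exact Finset.sum_fiberwise_of_maps_to (fun w' hw' => Finset.mem_image_of_mem _ hw') _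
  have hs4 : (∑ w' ∈ W0, if w' ∈ S then 0 else l w') + ∑ w' ∈ S, l w' = ∑ w' ∈ W0, l w' := by
    have h2 : ∑ w' ∈ S, l w' = ∑ w' ∈ W0, if w' ∈ S then l w' else 0 := by
      rw [Finset.sum_ite_mem, Finset.inter_eq_right.2 (by rw [hW0]; exact Finset.subset_union_right)]
    rw [h2, ← Finset.sum_add_distrib]
    refine Finset.sum_congr rfl fun w' _ => ?_
    split_ifs <;> simp
  have hs5 : ∑ᶠ w' : FinitePlace L, lm w'.1 (∑ w, n w) (∏ w, c w) x = ∑ w' ∈ W0, l w' := by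
    have h2 : ∑ᶠ w' : FinitePlace L, lm w'.1 (∑ w, n w) (∏ w, c w) x = ∑ᶠ w', l w' :=
      finsum_congr fun w' => (hl w').symm
    rw [h2]
    refine finsum_eq_sum_of_support_subset _ fun w' hw' => ?_
    by_contra h
    exact hw' (hout w' h)
  have hs6 : ∑ w' ∈ S, lm w'.1 (∑ w, n w) (∏ w, c w) x = ∑ w' ∈ S, l w' :=
    Finset.sum_congr rfl fun w' _ => (hl w').symm
  rw [hH, hs5, hs6] at hB
  rw [hs2]
  linarith

end LVN
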