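import Mathlib

/-! Finite places of an extension `L / K` of number fields: the place below, the places above. -/

namespace LVN

open NumberField

/-- the finite place of `K` below the finite place `w` of `L` -/
noncomputable def bel (K : Type) {L : Type} [Field K] [NumberField K] [Field L] [NumberField L] [Algebra K L]
    (w : FinitePlace L) : FinitePlace K :=
  FinitePlace.mk ⟨w.maximalIdeal.asIdeal.under (𝓞 K), inferInstance, by
    have := w.maximalIdeal.ne_bot
    exact Ideal.under_ne_bot (𝓞 K) this⟩

theorem bel_asIdeal (K : Type) {L : Type} [Field K] [NumberField K] [Field L] [NumberField L] [Algebra K L]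
    (w : FinitePlace L) : (bel K w).maximalIdeal.asIdeal = w.maximalIdeal.asIdeal.under (𝓞 K) := by
  unfold bel
  rw [FinitePlace.maximalIdeal_mk]

theorem bel_fin {K : Type} (L : Type) [Field K] [NumberField K] [Field L] [NumberField L] [Algebra K L]
    (v : FinitePlace K) : {w : FinitePlace L | bel K w = v}.Finite := by
  have h1 : (v.maximalIdeal.asIdeal.primesOver (𝓞 L)).Finite := Algebra.QuasiFinite.finite_primesOver _
  refine Set.Finite.of_injOn (f := fun w : FinitePlace L => w.maximalIdeal.asIdeal) ?_ ?_ h1
  · intro w hw
    refine ⟨inferInstance, ⟨?_⟩⟩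
    rw [← hw, bel_asIdeal]
  · intro w _ w' _ h
    exact FinitePlace.maximalIdeal_injective (IsDedekindDomain.HeightOneSpectrum.ext h)

/-- the finite places of `L` above the finite place `v` of `K` -/
noncomputable def fib {K : Type} (L : Type) [Field K] [NumberField K] [Field L] [NumberField L] [Algebra K L]
    (v : FinitePlace K) : Finset (FinitePlace L) := (bel_fin L v).toFinset

theorem mem_fib {K : Type} (L : Type) [Field K] [NumberField K] [Field L] [NumberField L] [Algebra K L]
    (v : FinitePlace K) (w : FinitePlace L) : w ∈ fib L v ↔ bel K w = v := by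
  rw [fib, Set.Finite.mem_toFinset]
  rfl

end LVN
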