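import Pool.Agent.Lib.MP_17a322_ntLF.N.Defs

/-! Leaf N1: the absolute value of an ideal.

PROOF.  `sup_mult`: let `P = v.maximalIdeal.asIdeal`, `q = absNorm P > 1` (`NumberField.HeightOneSpectrum.one_lt_absNorm`) and
`J = span (range g) ≠ ⊥`.  For `g i ≠ 0` the lemma `FinitePlace.apply_mul_absNorm_pow_eq_one v` says
`v (g i) * q ^ multiplicity P (span {g i}) = 1`.  Let `m = multiplicity P J`.  `span {g i} ≤ J`, so `J ∣ span {g i}` and `P ^ m ∣ J ∣ span {g i}`:
`multiplicity P (span {g i}) ≥ m` (finite multiplicity: `FiniteMultiplicity.of_not_isUnit` or `Ideal.finiteMultiplicity ..`) and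
`v (g i) ≤ q ^ (-m)`.  Some `g i` is not in `P ^ (m + 1)`, because otherwise `J ≤ P ^ (m + 1)`, `P ^ (m + 1) ∣ J`, a contradiction; for this `i`
the multiplicity is `m` and `v (g i) = q ^ (-m)`.  So the supremum (finite nonempty family; `ι` is nonempty since `g ≠ 0`) is `q ^ (-m)`.

`bel_norm`: `Q = w.maximalIdeal.asIdeal` lies over `P = Q.under (𝓞 K)` (`bel_asIdeal`), both are maximal, `absNorm Q = absNorm (relNorm (𝓞 K) Q)`
(`Ideal.absNorm_relNorm`) `= absNorm (P ^ Q.inertiaDeg (𝓞 K)) = absNorm P ^ f` (`Ideal.relNorm_eq_pow_of_isMaximal`), with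
`f = inertiaDeg > 0` (`Ideal.inertiaDeg_pos`), and `absNorm P ≥ 1`.
-/

namespace LVN

open NumberField

open IsDedekindDomain.HeightOneSpectrum Ideal FinitePlace Finite in
private theorem N1_aux {K : Type} [Field K] [NumberField K] (v : FinitePlace K) {ι : Type} [Finite ι]
    [Nonempty ι] (x : ι → 𝓞 K) (hx : ∀ i, x i ≠ 0) :
    (⨆ i, v (x i : K)) * (Ideal.absNorm v.maximalIdeal.asIdeal : ℝ) ^
      multiplicity v.maximalIdeal.asIdeal (Ideal.span (Set.range x)) = 1 := by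
  have H : ∀ j, Ideal.span {x j} ≠ ⊥ := fun j => mt Ideal.span_singleton_eq_bot.mp (hx j)
  have hn := Ideal.absNorm_eq_zero_iff.not.mpr v.maximalIdeal.ne_bot
  have h : ∀ {m : ℕ}, (0 : ℝ) < ↑(Ideal.absNorm v.maximalIdeal.asIdeal ^ m) := by
    intro m
    positivity
  rw [Ideal.span_range_eq_iSup, mul_comm, ← Nat.cast_pow, multiplicity_iSup _ H,
    mul_eq_one_iff_inv_eq₀ h.ne',
    map_iInf_of_monotone (fun _ ↦ multiplicity ..) (pow_right_monotone <| by lia),
    map_iInf_of_monotone _ Nat.mono_cast,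
    map_iInf_of_antitoneOn antitoneOn_inv_pos fun _ ↦ Set.mem_ofPred.mpr h]
  refine iSup_congr fun i ↦ ?_
  rw [← mul_eq_one_iff_inv_eq₀ h.ne', mul_comm, Nat.cast_pow]
  exact apply_mul_absNorm_pow_eq_one v (hx i)

theorem sup_mult {K : Type} [Field K] [NumberField K] (v : FinitePlace K) {ι : Type} [Fintype ι] (g : ι → 𝓞 K) (hg : g ≠ 0) :
    (⨆ i, v (g i : K)) * (Ideal.absNorm v.maximalIdeal.asIdeal : ℝ) ^
      multiplicity v.maximalIdeal.asIdeal (Ideal.span (Set.range g)) = 1 := by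
  obtain ⟨i₀, hi₀⟩ := Function.ne_iff.mp hg
  let i' : { j // (g j : K) ≠ 0 } := ⟨i₀, mod_cast hi₀⟩
  have : Nonempty _ := .intro i'
  have hI : Ideal.span (Set.range g) = Ideal.span (Set.range fun i : { j // (g j : K) ≠ 0 } ↦ g i.val) := by
    refine le_antisymm (Ideal.span_le.2 ?_) (Ideal.span_mono ?_)
    · rintro _ ⟨i, rfl⟩
      by_cases h : (g i : K) = 0
      · have h' : g i = 0 := mod_cast h
        rw [h']
        exact Ideal.zero_mem _
      · exact Ideal.subset_span ⟨⟨i, h⟩, rfl⟩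
    · rintro _ ⟨i, rfl⟩
      exact ⟨i.val, rfl⟩
  have hx₀ : (fun i ↦ (g i : K)) ≠ 0 := Function.ne_iff.mpr ⟨_, i'.prop⟩
  have h1 : (⨆ i, v (g i : K)) = ⨆ i : { j // (g j : K) ≠ 0 }, v (g i.val : K) :=
    Finite.iSup_eq_iSup_subtype (v := v) hx₀
  rw [h1, hI]
  exact N1_aux v _ fun j ↦ mod_cast j.prop

theorem absNorm_pow {K L : Type} [Field K] [NumberField K] [Field L] [NumberField L] [Algebra K L] (w : FinitePlace L) :
    Ideal.absNorm w.maximalIdeal.asIdeal =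
      Ideal.absNorm (bel K w).maximalIdeal.asIdeal ^ w.maximalIdeal.asIdeal.inertiaDeg (𝓞 K) := by
  have h0 : w.maximalIdeal.asIdeal.IsMaximal := w.maximalIdeal.isMaximal
  have h1 : (w.maximalIdeal.asIdeal.under (𝓞 K)).IsMaximal :=
    Ideal.isMaximal_comap_of_isIntegral_of_isMaximal w.maximalIdeal.asIdeal
  have h2 : w.maximalIdeal.asIdeal.LiesOver (w.maximalIdeal.asIdeal.under (𝓞 K)) := ⟨rfl⟩
  have h3 : Ideal.absNorm (Ideal.relNorm (𝓞 K) w.maximalIdeal.asIdeal) =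
      Ideal.absNorm w.maximalIdeal.asIdeal := Ideal.absNorm_relNorm _ _ _
  have h4 : Ideal.relNorm (𝓞 K) w.maximalIdeal.asIdeal = w.maximalIdeal.asIdeal.under (𝓞 K) ^
      w.maximalIdeal.asIdeal.inertiaDeg (𝓞 K) := Ideal.relNorm_eq_pow_of_isMaximal _ _
  rw [bel_asIdeal, ← h3, h4, map_pow]

theorem bel_norm {K L : Type} [Field K] [NumberField K] [Field L] [NumberField L] [Algebra K L] (w : FinitePlace L) :
    Ideal.absNorm (bel K w).maximalIdeal.asIdeal ≤ Ideal.absNorm w.maximalIdeal.asIdeal := by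
  rw [absNorm_pow (K := K) w]
  have h0 : w.maximalIdeal.asIdeal.IsPrime := w.maximalIdeal.isPrime
  have h1 : 0 < w.maximalIdeal.asIdeal.inertiaDeg (𝓞 K) := Ideal.inertiaDeg_pos _ _
  exact Nat.le_self_pow h1.ne' _

end LVN
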