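import Mathlib

/-! Leaf N7: a Frobenius automorphism.

PROOF.  `Q = ker θ` is a prime ideal of `𝓞 M`; `Q.under (𝓞 K) = ker r` (by `hθ` and injectivity of
`algebraMap (ZMod p) (AlgebraicClosure (ZMod p))`), and `𝓞 K ⧸ ker r ≃ ZMod p` (`r` is surjective: `ZMod.ringHom_surjective`,
`RingHom.quotientKerEquivOfSurjective`), so `Nat.card (𝓞 K ⧸ Q.under (𝓞 K)) = p`.  `𝓞 M ⧸ Q` is finite: `Q ≠ ⊥` since `p ∈ Q`
(`Ideal.finiteQuotientOfFreeOfNeBot` or `Ideal.Quotient.finite_of_..`, `Ring.HasFiniteQuotients`).  The group `Gal(M/K) = M ≃ₐ[K] M` acts on `𝓞 M` (instance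
in `Mathlib.NumberTheory.NumberField`, or `IsIntegralClosure.MulSemiringAction`) with invariants `𝓞 K` (`Algebra.IsInvariant`; see the instance
`IsGaloisGroup Gal(M/K) (𝓞 K) (𝓞 M)` and `IsGaloisGroup.isInvariant`, or `Algebra.isInvariant_of_isGalois (𝓞 K) K M (𝓞 M)`).
`IsArithFrobAt.exists_of_isInvariant` gives `g : Gal(M/K)` with `g • b - b ^ Nat.card (𝓞 K ⧸ Q.under (𝓞 K)) ∈ Q` for all `b : 𝓞 M`, that is
`θ (g • b) = θ b ^ p`; and `((g • b : 𝓞 M) : M) = g (b : M)`.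
-/

namespace LVN

open NumberField

theorem frob_gal {K M : Type} [Field K] [NumberField K] [Field M] [NumberField M] [Algebra K M] [IsGalois K M] {p : ℕ}
    [Fact p.Prime] (r : 𝓞 K →+* ZMod p) (θ : 𝓞 M →+* AlgebraicClosure (ZMod p))
    (hθ : ∀ a : 𝓞 K, θ (algebraMap (𝓞 K) (𝓞 M) a) = algebraMap (ZMod p) (AlgebraicClosure (ZMod p)) (r a)) :
    ∃ g : M ≃ₐ[K] M, ∀ b b' : 𝓞 M, (b' : M) = g (b : M) → θ b' = θ b ^ p := by
  have hp : p.Prime := Fact.out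
  have hQp : (RingHom.ker θ).IsPrime := RingHom.ker_isPrime θ
  have hpQ : (p : 𝓞 M) ∈ RingHom.ker θ := by
    rw [RingHom.mem_ker, map_natCast]
    exact CharP.cast_eq_zero _ p
  have hQ0 : RingHom.ker θ ≠ ⊥ := by
    intro h
    rw [h, Ideal.mem_bot] at hpQ
    exact hp.ne_zero (by exact_mod_cast hpQ)
  have hfin : Finite (𝓞 M ⧸ RingHom.ker θ) := Ideal.finiteQuotientOfFreeOfNeBot _ hQ0
  have hcard : Nat.card (𝓞 K ⧸ (RingHom.ker θ).under (𝓞 K)) = p := by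
    have h1 : (RingHom.ker θ).under (𝓞 K) = RingHom.ker r := by
      ext a
      rw [Ideal.under_def, Ideal.mem_comap, RingHom.mem_ker, RingHom.mem_ker, hθ]
      exact map_eq_zero_iff _ (algebraMap (ZMod p) (AlgebraicClosure (ZMod p))).injective
    rw [h1, Nat.card_congr
      (RingHom.quotientKerEquivOfSurjective (ZMod.ringHom_surjective r)).toEquiv, Nat.card_zmod]
  obtain ⟨g, hg⟩ := IsArithFrobAt.exists_of_isInvariant (𝓞 K) (M ≃ₐ[K] M) (RingHom.ker θ)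
  refine ⟨g, fun b b' hb => ?_⟩
  have h2 : b' = g • b := by
    apply RingOfIntegers.ext
    rw [hb]
    rfl
  have h3 := hg b
  rw [hcard] at h3
  have h4 : θ (g • b - b ^ p) = 0 := h3
  rw [map_sub, map_pow, sub_eq_zero] at h4
  rw [h2, h4]

end LVN
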