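import Mathlib

/-! Leaf N8: a Galois extension of `K` which contains `L`, and the norm as a product over the embeddings.

PROOF.  `M` is the normal closure of `L` in an algebraic closure: `M = normalClosure K L (AlgebraicClosure L)` (an `IntermediateField K (AlgebraicClosure L)`;
instances: `normalClosure.normal`, `normalClosure.is_finiteDimensional`, `normalClosure.algebra : Algebra L (normalClosure K L _)`, the scalar tower
instances in `Mathlib/FieldTheory/Normal/Closure.lean`).  It is a number field: characteristic zero, and finite over `ℚ`
(`Module.Finite.trans K`; `Algebra ℚ M` is unique, `DivisionRing.toRatAlgebra`).  Normal and separable (characteristic zero) gives `IsGalois K M`.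

`norm_prod`: `Algebra.norm_eq_prod_embeddings K (AlgebraicClosure M) z` : the image of `Algebra.norm K z` in `E = AlgebraicClosure M` is
`∏ σ : L →ₐ[K] E, σ z`.  The embeddings `L →ₐ[K] M` and `L →ₐ[K] E` correspond to each other by composition with `M → E`: injective clearly, surjective because
`M` is normal over `K` and contains `L` (`σ : L →ₐ[K] E` has image in `M`: the minimal polynomial of `z ∈ L` splits in `M`, so its roots in `E` are in the
image of `M`: see `AlgHom.restrictNormal`, `IsScalarTower`, `Normal.algHomEquivAut`, `Algebra.IsAlgebraic`, or `normalClosure.algHomEquiv`;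
another way: `AlgHom.fieldRange_of_normal`; another way: extend `σ` to `M →ₐ[K] E` by `IsAlgClosed.lift` and restrict by `AlgHom.restrictNormal'`).
The map `M → E` is injective, so the equality holds in `M`.  The number of the embeddings `L →ₐ[K] E` is `finrank K L` (`AlgHom.card`).
-/

namespace LVN

open NumberField

theorem exists_gal (K L : Type) [Field K] [NumberField K] [Field L] [NumberField L] [Algebra K L] :
    ∃ (M : Type) (_ : Field M) (_ : NumberField M) (_ : Algebra K M) (_ : Algebra L M) (_ : IsScalarTower K L M), IsGalois K M := by
  have hKL : Algebra.IsAlgebraic K L := Algebra.IsAlgebraic.of_finite K L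
  have hKA : Algebra.IsAlgebraic K (AlgebraicClosure L) := Algebra.IsAlgebraic.trans K L (AlgebraicClosure L)
  have hac : IsAlgClosure K (AlgebraicClosure L) := ⟨inferInstance, hKA⟩
  have hn : Normal K (AlgebraicClosure L) := IsAlgClosure.normal K _
  have hfd : FiniteDimensional K (IntermediateField.normalClosure K L (AlgebraicClosure L)) :=
    normalClosure.is_finiteDimensional K L (AlgebraicClosure L)
  have hnf : NumberField (IntermediateField.normalClosure K L (AlgebraicClosure L)) :=
    NumberField.of_module_finite K _
  have hnn : Normal K (IntermediateField.normalClosure K L (AlgebraicClosure L)) :=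
    normalClosure.normal K L (AlgebraicClosure L)
  exact ⟨IntermediateField.normalClosure K L (AlgebraicClosure L), inferInstance, hnf, inferInstance, inferInstance,
    inferInstance, ⟨⟩⟩

private theorem N8_splits (K L M : Type) [Field K] [NumberField K] [Field L] [NumberField L] [Algebra K L] [Field M] [NumberField M]
    [Algebra K M] [Algebra L M] [IsScalarTower K L M] [IsGalois K M] (x : L) :
    ((minpoly K x).map (algebraMap K M)).Splits := by
  have h := Normal.splits (inferInstance : Normal K M) (algebraMap L M x)
  rwa [minpoly.algebraMap_eq (algebraMap L M).injective] at h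

theorem norm_prod {K L M : Type} [Field K] [NumberField K] [Field L] [NumberField L] [Algebra K L] [Field M] [NumberField M]
    [Algebra K M] [Algebra L M] [IsScalarTower K L M] [IsGalois K M] (z : L) :
    algebraMap K M (Algebra.norm K z) = ∏ σ : L →ₐ[K] M, σ z := by
  apply (algebraMap M (AlgebraicClosure M)).injective
  rw [map_prod, ← IsScalarTower.algebraMap_apply K M (AlgebraicClosure M), Algebra.norm_eq_prod_embeddings]
  exact (Fintype.prod_equiv (Algebra.IsAlgebraic.algHomEquivAlgHomOfSplits (AlgebraicClosure M) M
    (N8_splits K L M)) _ _ fun _ => rfl).symm

theorem emb_card (K L M : Type) [Field K] [NumberField K] [Field L] [NumberField L] [Algebra K L] [Field M] [NumberField M]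
    [Algebra K M] [Algebra L M] [IsScalarTower K L M] [IsGalois K M] :
    Fintype.card (L →ₐ[K] M) = Module.finrank K L :=
  AlgHom.card_of_splits K L M (N8_splits K L M)

end LVN
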