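import Pool.Agent.Lib.MP_17a322_ntLF.N.N6
import Pool.Agent.Lib.MP_17a322_ntLF.N.N7
import Pool.Agent.Lib.MP_17a322_ntLF.N.N8

/-! Leaf N9: the reductions of the conjugates, stable under the Frobenius map.

PROOF.  `M` from `exists_gal K L`, `θ0 : 𝓞 M →+* F` from `ext_hom` (`F = AlgebraicClosure (ZMod p)`), `g` from `frob_gal`.  For
`σ : L →ₐ[K] M` let `σ' : 𝓞 L →+* 𝓞 M` be its restriction (`RingOfIntegers.mapRingHom σ` or `RingOfIntegers.mapAlgHom`: `((σ' b : 𝓞 M) : M) = σ (b : L)`).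
Index the embeddings by `Fin (finrank K L)` with an equivalence `e : Fin (finrank K L) ≃ (L →ₐ[K] M)` (`Fintype.equivFinOfCardEq (emb_card K L M)`),
`θ k = θ0 ∘ (e k)'`, and `s = e.trans ((postcomposition with g).trans e.symm)`, where `σ ↦ g.toAlgHom.comp σ` is a permutation of `L →ₐ[K] M` with
inverse `σ ↦ g.symm.toAlgHom.comp σ`.  (i) `(e k)'` maps `algebraMap (𝓞 K) (𝓞 L) a` to `algebraMap (𝓞 K) (𝓞 M) a` (compare in `M`: `σ` commutes
with `K`).  (ii) `θ k b ^ p = θ0 (σ' b) ^ p = θ0 ((g σ)' b)` by `frob_gal` since `((g σ)' b : M) = g (σ b) = g (σ' b : M)`.  (iii) If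
`(a : K) = Algebra.norm K (b : L)`: by `norm_prod`, `algebraMap (𝓞 K) (𝓞 M) a = ∏ σ, σ' b` in `𝓞 M` (compare in `M`: `map_prod`,
`RingOfIntegers.coe_injective` / `RingOfIntegers.ext`), apply `θ0` and reindex the product by `e` (`Fintype.prod_equiv`).
-/

namespace LVN

open NumberField

theorem frob_fam {K L : Type} [Field K] [NumberField K] [Field L] [NumberField L] [Algebra K L] {p : ℕ} [Fact p.Prime]
    (r : 𝓞 K →+* ZMod p) : ∃ (θ : Fin (Module.finrank K L) → (𝓞 L →+* AlgebraicClosure (ZMod p)))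
      (s : Equiv.Perm (Fin (Module.finrank K L))),
      (∀ k a, θ k (algebraMap (𝓞 K) (𝓞 L) a) = algebraMap (ZMod p) (AlgebraicClosure (ZMod p)) (r a)) ∧
        (∀ k b, θ k b ^ p = θ (s k) b) ∧
          ∀ (b : 𝓞 L) (a : 𝓞 K), (a : K) = Algebra.norm K (b : L) →
            algebraMap (ZMod p) (AlgebraicClosure (ZMod p)) (r a) = ∏ k, θ k b := by
  classical
  obtain ⟨M, _, _, _, _, _, _⟩ := exists_gal K L
  obtain ⟨θ0, hθ0⟩ := ext_hom (M := M) r
  obtain ⟨g, hg⟩ := frob_gal r θ0 hθ0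
  let e : Fin (Module.finrank K L) ≃ (L →ₐ[K] M) := (Fintype.equivFinOfCardEq (emb_card K L M)).symm
  let S : Equiv.Perm (L →ₐ[K] M) :=
    { toFun := fun σ => (g : M →ₐ[K] M).comp σ
      invFun := fun σ => (g.symm : M →ₐ[K] M).comp σ
      left_inv := fun σ => AlgHom.ext fun x => g.symm_apply_apply (σ x)
      right_inv := fun σ => AlgHom.ext fun x => g.apply_symm_apply (σ x) }
  have hb : ∀ (a : 𝓞 K) (σ : L →ₐ[K] M),
      RingOfIntegers.mapRingHom (σ : L →+* M) (algebraMap (𝓞 K) (𝓞 L) a) = algebraMap (𝓞 K) (𝓞 M) a := by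
    intro a σ
    apply RingOfIntegers.ext
    rw [RingOfIntegers.mapRingHom_apply]
    exact σ.commutes (a : K)
  refine ⟨fun k => θ0.comp (RingOfIntegers.mapRingHom ((e k : L →ₐ[K] M) : L →+* M)), e.trans (S.trans e.symm),
    ?_, ?_, ?_⟩
  · intro k a
    rw [RingHom.comp_apply, hb, hθ0]
  · intro k b
    rw [RingHom.comp_apply, RingHom.comp_apply]
    refine (hg _ _ ?_).symm
    rw [RingOfIntegers.mapRingHom_apply, RingOfIntegers.mapRingHom_apply]
    have h1 : e ((e.trans (S.trans e.symm)) k) = S (e k) := e.apply_symm_apply _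
    rw [h1]
    rfl
  · intro b a hab
    have h1 : algebraMap (𝓞 K) (𝓞 M) a = ∏ σ : L →ₐ[K] M, RingOfIntegers.mapRingHom (σ : L →+* M) b := by
      apply RingOfIntegers.coe_injective
      rw [map_prod]
      have h2 : algebraMap (𝓞 M) M (algebraMap (𝓞 K) (𝓞 M) a) = algebraMap K M (a : K) := rfl
      rw [h2, hab, norm_prod]
      rfl
    rw [← hθ0, h1, map_prod]
    exact (Equiv.prod_comp e fun σ => θ0 (RingOfIntegers.mapRingHom (σ : L →+* M) b)).symm

end LVN
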