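import Pool.Agent.Lib.MP_17a322_ntLF.N.N5
import Pool.Agent.Lib.MP_17a322_ntLF.N.N9
import Pool.Agent.Lib.MP_17a322_ntLF.N.Defs

/-! Leaf N10: the reduction of a vector: `semi` and `frob_fam` together.

PROOF.  `P = ker r` is a maximal ideal of `𝓞 K` (`𝓞 K ⧸ ker r ≃ ZMod p` is a field, `r` is surjective: `ZMod.ringHom_surjective`), `P ≠ ⊥` (`p ∈ P`).
Let `v = FinitePlace.mk ⟨P, _, _⟩`.  `semi x hx (fib L v)` gives `lam`, `x'`, and `frob_fam r` gives `θ`, `s`.  For every `k` some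
`θ k (x' i) ≠ 0`: `Q = ker (θ k)` is a prime ideal of `𝓞 L` (`RingHom.ker_isPrime`), `Q ≠ ⊥` because `(p : 𝓞 L) ∈ Q`; let `w = FinitePlace.mk ⟨Q, _, _⟩`
(`FinitePlace.maximalIdeal_mk`).  `Q.under (𝓞 K) = P`: by the first property of `θ` and the injectivity of `algebraMap (ZMod p) _`.  So
`bel K w = v` (`bel_asIdeal`, `FinitePlace.maximalIdeal_injective`), `w ∈ fib L v` (`mem_fib`) and `w (x' i) = 1` for some `i`, that is `x' i ∉ Q`
(`FinitePlace.norm_eq_one_iff_notMem` with `FinitePlace.norm_embedding_eq`).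
-/

namespace LVN

open NumberField

private theorem N10_kerNe {K F : Type} [Field K] [NumberField K] [Field F] {p : ℕ} (hp : p ≠ 0) [CharP F p]
    (r : 𝓞 K →+* F) : RingHom.ker r ≠ ⊥ := by
  intro h
  have h1 : (p : 𝓞 K) ∈ RingHom.ker r := by
    rw [RingHom.mem_ker, map_natCast]
    exact CharP.cast_eq_zero F p
  rw [h, Ideal.mem_bot] at h1
  exact hp (by exact_mod_cast h1)

theorem red_vec {K L : Type} [Field K] [NumberField K] [Field L] [NumberField L] [Algebra K L] {p : ℕ} [Fact p.Prime]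
    (r : 𝓞 K →+* ZMod p) {σ : Type} [Fintype σ] (x : σ → L) (hx : x ≠ 0) :
    ∃ (lam : L) (x' : σ → 𝓞 L) (θ : Fin (Module.finrank K L) → (𝓞 L →+* AlgebraicClosure (ZMod p)))
      (s : Equiv.Perm (Fin (Module.finrank K L))), lam ≠ 0 ∧ (∀ i, (x' i : L) = lam * x i) ∧ (∀ k, ∃ i, θ k (x' i) ≠ 0) ∧
        (∀ k a, θ k (algebraMap (𝓞 K) (𝓞 L) a) = algebraMap (ZMod p) (AlgebraicClosure (ZMod p)) (r a)) ∧
        (∀ k b, θ k b ^ p = θ (s k) b) ∧
          ∀ (b : 𝓞 L) (a : 𝓞 K), (a : K) = Algebra.norm K (b : L) →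
            algebraMap (ZMod p) (AlgebraicClosure (ZMod p)) (r a) = ∏ k, θ k b := by
  have hp0 : p ≠ 0 := (Fact.out : p.Prime).ne_zero
  obtain ⟨θ, s, h1, h2, h3⟩ := frob_fam (K := K) (L := L) r
  let v : FinitePlace K := FinitePlace.mk ⟨RingHom.ker r, RingHom.ker_isPrime r, N10_kerNe hp0 r⟩
  have hv : v.maximalIdeal.asIdeal = RingHom.ker r := by
    show (FinitePlace.mk ⟨RingHom.ker r, RingHom.ker_isPrime r, N10_kerNe hp0 r⟩ : FinitePlace K).maximalIdeal.asIdeal = _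
    rw [FinitePlace.maximalIdeal_mk]
  obtain ⟨lam, x', hlam, hx', hw⟩ := semi x hx (fib L v)
  refine ⟨lam, x', θ, s, hlam, hx', ?_, h1, h2, h3⟩
  intro k
  have hne : RingHom.ker (θ k) ≠ ⊥ := N10_kerNe hp0 (θ k)
  let w : FinitePlace L := FinitePlace.mk ⟨RingHom.ker (θ k), RingHom.ker_isPrime (θ k), hne⟩
  have hwI : w.maximalIdeal.asIdeal = RingHom.ker (θ k) := by
    show (FinitePlace.mk ⟨RingHom.ker (θ k), RingHom.ker_isPrime (θ k), hne⟩ : FinitePlace L).maximalIdeal.asIdeal = _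
    rw [FinitePlace.maximalIdeal_mk]
  have hbel : bel K w = v := by
    refine FinitePlace.maximalIdeal_injective (IsDedekindDomain.HeightOneSpectrum.ext ?_)
    simp only
    rw [bel_asIdeal, hwI, hv]
    ext a
    rw [Ideal.under, Ideal.mem_comap, RingHom.mem_ker, RingHom.mem_ker, h1]
    exact map_eq_zero_iff _ (algebraMap (ZMod p) (AlgebraicClosure (ZMod p))).injective
  obtain ⟨i, hi⟩ := hw w ((mem_fib L v w).2 hbel)
  refine ⟨i, fun h0 => ?_⟩
  rw [← FinitePlace.norm_embedding_eq w] at hi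
  have h4 := (FinitePlace.norm_eq_one_iff_notMem L w.maximalIdeal (x' i)).1 hi
  rw [hwI, RingHom.mem_ker] at h4
  exact h4 h0

end LVN
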