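import Pool.Agent.Lib.MP_17a322_ntLX.PDefs
import Pool.Agent.Lib.MP_17a322_ntLH.T4R

/-! Leaf N11: the elements of the valuation ring of a place of degree one are fractions.

PROOF.  `P = ker (ro π)` is a maximal ideal of `𝓞 K`, `P ≠ ⊥` (`p ∈ P`; `ro π` is surjective: `ZMod.ringHom_surjective`).  For `c : 𝓞 K`: `Rd π (c : K) (ro π c)`
(definition of `ro`, `⟨int_mem π c, rfl⟩`).  `frac`: let `x ∈ π.V`, `x ≠ 0` (for `x = 0` take `c = 1`, `a = 0`).  The localization of `𝓞 K` at `P` is a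
valuation ring with fraction field `K`, so there are `c : 𝓞 K`, `c ∉ P`, and `a : 𝓞 K` with `c x = a` or `c x⁻¹ = a` (`ValuationRing` instance of
`Localization.AtPrime P`; or: `v = HeightOneSpectrum ⟨P, _, _⟩`, `v.valuation K x ≤ 1` or `v.valuation K x⁻¹ ≤ 1`, and
`IsDedekindDomain.HeightOneSpectrum.exists_..`, see `valuation_le_one_iff..`/ `IsLocalization.AtPrime`; ELEMENTARY: write `x = b / d`, `b d ≠ 0` in
`𝓞 K`; if `multiplicity P (span {d}) ≤ multiplicity P (span {b})`, choose with the Chinese remainder theorem or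
`IsDedekindDomain.exists_sup_span_eq` an element of `span {d} : span {b}`-type ideal outside `P`: the ideal `{c | c b ∈ span {d}}` is not
contained in `P`).  In the first case we are done, `c x = a`.  In the second case `c x⁻¹ = a`; if `a ∉ P`, `a x = c` and we are done again (with
`a` for `c`).  If `a ∈ P`: `Rd π (c : K) (ro π c)`, and `c = a x` has residue `ro π a * (residue of x) = 0` (`LVH.Rd.mul`), so `ro π c = 0` by
`LVH.Rd.unique`, a contradiction to `c ∉ P`.

`frac_fin`: finitely many elements `x t ∈ π.V` have a common denominator: the product of the denominators.  `frac_poly`: apply it to the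
coefficients of `f` (`f.support`), and `F = ∑ e ∈ f.support, monomial e (a e)`; its image in `K[X]` is `C c * f`, and
`MvPolynomial.map (ro π) F = C (ro π c) * f'` : compare coefficients: `coeff e` of the left is `ro π (a e)`, `(a e : K) = c * coeff e f`, residue
`ro π c * coeff e f'` by `Rd.mul`, `Rd.unique`; for `e ∉ f.support`: `coeff e f = 0`, so `coeff e f' = 0` by `Rd.unique` and `Rd.zero`.
-/

namespace LVN

open NumberField
open LVH (Pl Rd)
open LVX (ro)

theorem frac {K : Type} [Field K] [NumberField K] {p : ℕ} [Fact p.Prime] (π : Pl K p) (x : K) (hx : x ∈ π.V) :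
    ∃ c a : 𝓞 K, ro π c ≠ 0 ∧ (c : K) * x = (a : K) := by
  have hP : RingHom.ker (ro π) ≠ ⊤ := RingHom.ker_ne_top _
  obtain ⟨b, d, hd, rfl⟩ := IsFractionRing.div_surjective (A := 𝓞 K) x
  have hd0 : d ≠ 0 := nonZeroDivisors.ne_zero hd
  have hdK : (algebraMap (𝓞 K) K d) ≠ 0 := by
    rw [Ne, FaithfulSMul.algebraMap_eq_zero_iff]
    exact hd0
  set J : Ideal (𝓞 K) := Ideal.span {b} ⊔ Ideal.span {d} with hJ
  have hbJ : b ∈ J := Ideal.mem_sup_left (Ideal.mem_span_singleton_self b)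
  have hdJ : d ∈ J := Ideal.mem_sup_right (Ideal.mem_span_singleton_self d)
  have hJne : J ≠ 0 := by
    intro h
    rw [h] at hdJ
    exact hd0 hdJ
  obtain ⟨B, hB⟩ : J ∣ Ideal.span {b} := Ideal.dvd_iff_le.2 le_sup_left
  obtain ⟨D, hD⟩ : J ∣ Ideal.span {d} := Ideal.dvd_iff_le.2 le_sup_right
  have hBD : B ⊔ D = ⊤ := by
    rw [← Ideal.one_eq_top]
    apply mul_left_cancel₀ hJne
    rw [Ideal.mul_sup, ← hB, ← hD, mul_one]
  by_cases hDP : D ≤ RingHom.ker (ro π)
  · have hBP : ¬ B ≤ RingHom.ker (ro π) := by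
      intro h
      exact hP (top_le_iff.1 (hBD ▸ sup_le h hDP))
    obtain ⟨c, hcB, hcP⟩ := SetLike.not_le_iff_exists.1 hBP
    have h1 : d * c ∈ Ideal.span {b} := by
      rw [hB]
      exact Ideal.mul_mem_mul hdJ hcB
    obtain ⟨a, ha⟩ := Ideal.mem_span_singleton'.1 h1
    have h2 : (algebraMap (𝓞 K) K a) * (algebraMap (𝓞 K) K b / algebraMap (𝓞 K) K d) = algebraMap (𝓞 K) K c := by
      have h3 : algebraMap (𝓞 K) K a * algebraMap (𝓞 K) K b = algebraMap (𝓞 K) K d * algebraMap (𝓞 K) K c := by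
        rw [← map_mul, ← map_mul, ha]
      field_simp
      linear_combination h3
    refine ⟨a, c, ?_, h2⟩
    intro ha0
    apply hcP
    rw [RingHom.mem_ker]
    have r1 : Rd π (algebraMap (𝓞 K) K a) (ro π a) := ⟨LVX.int_mem π a, rfl⟩
    have r2 : Rd π (algebraMap (𝓞 K) K b / algebraMap (𝓞 K) K d) (π.ρ ⟨_, hx⟩) := ⟨hx, rfl⟩
    have r3 : Rd π (algebraMap (𝓞 K) K c) (ro π c) := ⟨LVX.int_mem π c, rfl⟩
    have r4 := r1.mul r2
    rw [h2, ha0, zero_mul] at r4
    exact r3.unique r4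
  · obtain ⟨c, hcD, hcP⟩ := SetLike.not_le_iff_exists.1 hDP
    have h1 : b * c ∈ Ideal.span {d} := by
      rw [hD]
      exact Ideal.mul_mem_mul hbJ hcD
    obtain ⟨a, ha⟩ := Ideal.mem_span_singleton'.1 h1
    refine ⟨c, a, hcP, ?_⟩
    have h3 : algebraMap (𝓞 K) K a * algebraMap (𝓞 K) K d = algebraMap (𝓞 K) K b * algebraMap (𝓞 K) K c := by
      rw [← map_mul, ← map_mul, ha]
    change algebraMap (𝓞 K) K c * (algebraMap (𝓞 K) K b / algebraMap (𝓞 K) K d) = algebraMap (𝓞 K) K a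
    field_simp
    linear_combination -h3

theorem frac_poly {K : Type} [Field K] [NumberField K] {p : ℕ} [Fact p.Prime] (π : Pl K p) {σ : Type}
    (f : MvPolynomial σ K) (f' : MvPolynomial σ (ZMod p)) (h : ∀ e, Rd π (f.coeff e) (f'.coeff e)) :
    ∃ (c : 𝓞 K) (F : MvPolynomial σ (𝓞 K)), ro π c ≠ 0 ∧
      MvPolynomial.map (algebraMap (𝓞 K) K) F = MvPolynomial.C (c : K) * f ∧
        MvPolynomial.map (ro π) F = MvPolynomial.C (ro π c) * f' := by
  classical
  choose cc aa hcc haa using fun e => frac π (f.coeff e) (h e).1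
  obtain ⟨c, A, hc, hA⟩ : ∃ (c : 𝓞 K) (A : (σ →₀ ℕ) → 𝓞 K), ro π c ≠ 0 ∧
      ∀ e ∈ f.support, (algebraMap (𝓞 K) K c) * f.coeff e = algebraMap (𝓞 K) K (A e) := by
    refine ⟨∏ e ∈ f.support, cc e, fun e => (∏ e' ∈ f.support.erase e, cc e') * aa e, ?_, ?_⟩
    · rw [map_prod]
      exact Finset.prod_ne_zero_iff.2 fun e _ => hcc e
    · intro e he
      have h1 : (algebraMap (𝓞 K) K (cc e)) * f.coeff e = algebraMap (𝓞 K) K (aa e) := haa e
      rw [← Finset.mul_prod_erase f.support cc he, map_mul, map_mul, ← h1]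
      ring
  have hF : ∀ e, algebraMap (𝓞 K) K (MvPolynomial.coeff e (∑ e ∈ f.support, MvPolynomial.monomial e (A e))) =
      algebraMap (𝓞 K) K c * f.coeff e := by
    intro e
    rw [MvPolynomial.coeff_sum]
    simp only [MvPolynomial.coeff_monomial]
    rw [Finset.sum_ite_eq' f.support e A]
    split_ifs with he
    · exact (hA e he).symm
    · rw [MvPolynomial.notMem_support_iff.1 he, mul_zero, map_zero]
  refine ⟨c, ∑ e ∈ f.support, MvPolynomial.monomial e (A e), hc, ?_, ?_⟩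
  · refine MvPolynomial.ext _ _ fun e => ?_
    rw [MvPolynomial.coeff_map, MvPolynomial.coeff_C_mul]
    exact hF e
  · refine MvPolynomial.ext _ _ fun e => ?_
    rw [MvPolynomial.coeff_map, MvPolynomial.coeff_C_mul]
    have r1 : Rd π (algebraMap (𝓞 K) K (MvPolynomial.coeff e (∑ e ∈ f.support, MvPolynomial.monomial e (A e))))
        (ro π (MvPolynomial.coeff e (∑ e ∈ f.support, MvPolynomial.monomial e (A e)))) := ⟨LVX.int_mem π _, rfl⟩
    have r2 : Rd π (algebraMap (𝓞 K) K c) (ro π c) := ⟨LVX.int_mem π c, rfl⟩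
    have r3 := r2.mul (h e)
    rw [← hF e] at r3
    exact r1.unique r3

end LVN
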