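import Pool.Agent.Lib.MP_17a322_ntLF.N.N10
import Pool.Agent.Lib.MP_17a322_ntLF.N.N11

/-! Leaf N12: the values of a polynomial at the reductions of the conjugates.

PROOF.  Notation: `F = AlgebraicClosure (ZMod p)`, `A = algebraMap (ZMod p) F`.  Let `f`, `f'` be as in `frac_poly` and homogeneous of degree `n` (`f`), with
`c`, `G` (the polynomial `F` of `frac_poly`).  `b = aeval x f ∈ L` and `b' = aeval x' G ∈ 𝓞 L` (`x' i ∈ 𝓞 L`, `(x' i : L) = lam * x i`).
(1) `(b' : L) = aeval (lam • x) (map _ G) = c * aeval (lam • x) f = c * lam ^ n * b` (naturality: `MvPolynomial.aeval_def`, `MvPolynomial.hom_eval₂`,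
`MvPolynomial.eval₂_map`; homogeneity: `MvPolynomial.IsHomogeneous.aeval`-type lemma or the private lemma `T7_hom` of
`MP_17a322_ntLX/T7.lean`).  (2) `θ (b') = A (ro π c) * aeval (fun i => θ (x' i)) f'` for a ring homomorphism `θ : 𝓞 L →+* F` with
`θ (algebraMap (𝓞 K) (𝓞 L) a) = A (ro π a)`: `MvPolynomial.hom_eval₂`, the equality of ring homomorphisms
`θ.comp (algebraMap (𝓞 K) (𝓞 L)) = A.comp (ro π)`, and the value of `map (ro π) G = C (ro π c) * f'`.
`val_zero`: `b = 0` gives `b' = 0` and, by (2), `0 = A (ro π c) * aeval _ f'`, with `A (ro π c) ≠ 0`.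
`val_norm`: let `m = finrank K L`, `a : 𝓞 K` the norm of `b'` (`Algebra.intNorm (𝓞 K) (𝓞 L) b'` with `Algebra.algebraMap_intNorm`, or
`RingOfIntegers.norm K b'` with `RingOfIntegers.coe_norm`).  `(a : K) = norm (c lam ^ n b) = c ^ m * (norm lam) ^ n * norm b`
(`Algebra.norm_algebraMap`, `map_mul`, `map_pow`) `= c ^ m * (norm lam * α) ^ n * y`.  By the third property of `θ`:
`A (ro π a) = ∏ k, θ k b' = A (ro π c) ^ m * ∏ k, aeval (z k) f'` (`Finset.prod_mul_distrib`, `Finset.prod_const`, `Finset.card_univ`).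
-/

namespace LVN

open NumberField MvPolynomial
open LVH (Pl Rd)
open LVX (ro)

private theorem N12_hom {K L : Type} [Field K] [Field L] [Algebra K L] {σ : Type} [Fintype σ] (x : σ → L) (lam : L)
    (f : MvPolynomial σ K) {n : ℕ} (hn : f.IsHomogeneous n) :
    aeval (fun i => lam * x i) f = lam ^ n * aeval x f := by
  rw [MvPolynomial.aeval_def, MvPolynomial.aeval_def, MvPolynomial.eval₂_eq', MvPolynomial.eval₂_eq', Finset.mul_sum]
  refine Finset.sum_congr rfl fun e he => ?_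
  have h1 : ∑ t, e t = n := by
    have h2 := hn.degree_eq_sum_deg_support he
    rw [h2]
    refine (Finset.sum_subset (Finset.subset_univ _) fun t _ ht => ?_).symm
    exact Finsupp.notMem_support_iff.1 ht
  have h3 : ∏ t, (lam * x t) ^ e t = lam ^ n * ∏ t, x t ^ e t := by
    rw [← h1, ← Finset.prod_pow_eq_pow_sum, ← Finset.prod_mul_distrib]
    exact Finset.prod_congr rfl fun t _ => mul_pow _ _ _
  rw [h3]
  ring

private theorem N12_core {K L : Type} [Field K] [NumberField K] [Field L] [NumberField L] [Algebra K L] {p : ℕ}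
    [Fact p.Prime] (π : Pl K p) {σ : Type} [Fintype σ] (x : σ → L) (lam : L) (x' : σ → 𝓞 L)
    (hx' : ∀ i, (x' i : L) = lam * x i) (f : MvPolynomial σ K) (f' : MvPolynomial σ (ZMod p))
    (h : ∀ e, Rd π (f.coeff e) (f'.coeff e)) {n : ℕ} (hn : f.IsHomogeneous n) :
    ∃ (c : 𝓞 K) (b : 𝓞 L), ro π c ≠ 0 ∧ (b : L) = algebraMap K L (c : K) * lam ^ n * aeval x f ∧
      ∀ θ : 𝓞 L →+* AlgebraicClosure (ZMod p),
        (∀ a, θ (algebraMap (𝓞 K) (𝓞 L) a) = algebraMap (ZMod p) (AlgebraicClosure (ZMod p)) (ro π a)) →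
          θ b = algebraMap (ZMod p) (AlgebraicClosure (ZMod p)) (ro π c) * aeval (fun i => θ (x' i)) f' := by
  obtain ⟨c, G, hc, h1, h2⟩ := frac_poly π f f' h
  refine ⟨c, aeval x' G, hc, ?_, fun θ hθ => ?_⟩
  · have h3 : algebraMap (𝓞 L) L (aeval x' G) = aeval (fun i => lam * x i) (MvPolynomial.map (algebraMap (𝓞 K) K) G) := by
      rw [MvPolynomial.aeval_def, MvPolynomial.aeval_def, MvPolynomial.hom_eval₂, MvPolynomial.eval₂_map,
        ← IsScalarTower.algebraMap_eq, ← IsScalarTower.algebraMap_eq]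
      congr 1
      funext i
      exact hx' i
    change algebraMap (𝓞 L) L (aeval x' G) = _
    rw [h3, h1, map_mul, MvPolynomial.aeval_C, N12_hom x lam f hn, mul_assoc]
  · have h4 : θ.comp (algebraMap (𝓞 K) (𝓞 L)) = (algebraMap (ZMod p) (AlgebraicClosure (ZMod p))).comp (ro π) :=
      RingHom.ext hθ
    rw [MvPolynomial.aeval_def, MvPolynomial.hom_eval₂, h4, ← MvPolynomial.eval₂_map, h2, MvPolynomial.eval₂_mul,
      MvPolynomial.eval₂_C, MvPolynomial.aeval_def]

theorem val_zero {K L : Type} [Field K] [NumberField K] [Field L] [NumberField L] [Algebra K L] {p : ℕ} [Fact p.Prime]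
    (π : Pl K p) {σ : Type} [Fintype σ] (x : σ → L) (lam : L) (x' : σ → 𝓞 L) (hx' : ∀ i, (x' i : L) = lam * x i)
    (θ : 𝓞 L →+* AlgebraicClosure (ZMod p))
    (hθ : ∀ a, θ (algebraMap (𝓞 K) (𝓞 L) a) = algebraMap (ZMod p) (AlgebraicClosure (ZMod p)) (ro π a))
    (f : MvPolynomial σ K) (f' : MvPolynomial σ (ZMod p)) (h : ∀ e, Rd π (f.coeff e) (f'.coeff e)) {n : ℕ}
    (hn : f.IsHomogeneous n) (h0 : aeval x f = 0) : aeval (fun i => θ (x' i)) f' = 0 := by
  obtain ⟨c, b, hc, h1, h2⟩ := N12_core π x lam x' hx' f f' h hn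
  rw [h0, mul_zero] at h1
  have h3 : b = 0 := RingOfIntegers.ext (h1.trans (map_zero (algebraMap (𝓞 L) L)).symm)
  have h4 := h2 θ hθ
  rw [h3, map_zero] at h4
  refine (mul_eq_zero.1 h4.symm).resolve_left fun h5 => hc ?_
  exact (map_eq_zero _).1 h5

theorem val_norm {K L : Type} [Field K] [NumberField K] [Field L] [NumberField L] [Algebra K L] {p : ℕ} [Fact p.Prime]
    (π : Pl K p) {σ : Type} [Fintype σ] (x : σ → L) (lam : L) (x' : σ → 𝓞 L) (hx' : ∀ i, (x' i : L) = lam * x i)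
    (θ : Fin (Module.finrank K L) → (𝓞 L →+* AlgebraicClosure (ZMod p)))
    (hθ : ∀ k a, θ k (algebraMap (𝓞 K) (𝓞 L) a) = algebraMap (ZMod p) (AlgebraicClosure (ZMod p)) (ro π a))
    (hN : ∀ (b : 𝓞 L) (a : 𝓞 K), (a : K) = Algebra.norm K (b : L) →
      algebraMap (ZMod p) (AlgebraicClosure (ZMod p)) (ro π a) = ∏ k, θ k b)
    (f : MvPolynomial σ K) (f' : MvPolynomial σ (ZMod p)) (h : ∀ e, Rd π (f.coeff e) (f'.coeff e)) {n : ℕ}
    (hn : f.IsHomogeneous n) (α y : K) (hy : Algebra.norm K (aeval x f) = α ^ n * y) :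
    ∃ c a : 𝓞 K, ro π c ≠ 0 ∧ (a : K) = (c : K) ^ Module.finrank K L * (Algebra.norm K lam * α) ^ n * y ∧
      algebraMap (ZMod p) (AlgebraicClosure (ZMod p)) (ro π a) =
        algebraMap (ZMod p) (AlgebraicClosure (ZMod p)) (ro π c) ^ Module.finrank K L *
          ∏ k, aeval (fun i => θ k (x' i)) f' := by
  obtain ⟨c, b, hc, h1, h2⟩ := N12_core π x lam x' hx' f f' h hn
  have ha : ((RingOfIntegers.norm K b : 𝓞 K) : K) = Algebra.norm K (b : L) := RingOfIntegers.coe_norm K b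
  refine ⟨c, RingOfIntegers.norm K b, hc, ?_, ?_⟩
  · rw [ha, h1, map_mul, map_mul, map_pow, Algebra.norm_algebraMap, hy, mul_pow]
    ring
  · rw [hN b _ ha, Finset.prod_congr rfl fun k _ => h2 (θ k) (hθ k), Finset.prod_mul_distrib, Finset.prod_const,
      Finset.card_univ, Fintype.card_fin]

end LVN
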