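import Pool.Agent.Lib.MP_17a322_ntLF.Defs
import Pool.Agent.Lib.MP_17a322_ntLF.N.N12

/-! Leaf N13: the reduction of a point of degree `m` modulo a place of degree one, with a Frobenius permutation.  MAIN EXPORT OF BLOCK B.

PROOF.  `red_vec (ro π) x hx` gives `lam`, `x'`, `θ`, `s`; `z k t = θ k (x' t)`.  `z k ≠ 0`, `z k t ^ p = z (s k) t` are clear and
`aeval (z k) (g' v) = 0` is `val_zero`.  Let `u = Algebra.norm K lam * α ≠ 0` (`Algebra.norm_ne_zero_iff` or `map_ne_zero`).  For every `w`, `val_norm` gives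
`c`, `a` with `(a : K) = c ^ m * u ^ d w * y w` and `A (ro π a) = A (ro π c) ^ m * ∏ k, aeval (z k) (h' w)`, where `m = finrank K L`,
`A = algebraMap (ZMod p) (Kb p)` (injective).  Residues: `Rd π (c : K) (ro π c)`, `Rd π (a : K) (ro π a)` (`⟨LVX.int_mem π c, rfl⟩`), `LVH.Rd.mul`, `Rd.pow`,
`Rd.unique`, `Rd.inv`, `Rd.ne` (`MP_17a322_ntLH/T4R.lean`).
(A) `u ∈ π.V` and `u⁻¹ ∈ π.V`: `μ = π.ρ ⟨u, _⟩ ≠ 0` (`Rd.ne`), so `ro π a = ro π c ^ m * μ ^ d w * y' w`; cancel `A (ro π c) ^ m ≠ 0`: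
`∏ k, aeval (z k) (h' w) = A (μ ^ d w * y' w)`: first case.
(B) `u ∈ π.V`, `u⁻¹ ∉ π.V`: the residue of `u` is `0` (`π.ker`), so `ro π a = 0` (`1 ≤ d w`) and the product is `0` for all `w`: second case.
(C) `u ∉ π.V`: `u⁻¹ ∈ π.V` (`π.V.mem_or_inv_mem`) has residue `0` (`π.ker`, as `(u⁻¹)⁻¹ = u ∉ π.V`).  For a `w`:
`(u⁻¹) ^ d w * a = c ^ m * y w`, so `0 = ro π c ^ m * y' w ≠ 0`, a contradiction; so there is no `w : W` and the second case holds.
-/

namespace LVF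

open NumberField MvPolynomial
open LVH (Pl Rd)

theorem redS {K L : Type} [Field K] [NumberField K] [Field L] [NumberField L] [Algebra K L] {p : ℕ} [Fact p.Prime]
    (π : Pl K p) {q : ℕ} (x : Fin q → L) (hx : x ≠ 0) {W : Type} (d : W → ℕ) (hd : ∀ w, 1 ≤ d w)
    (h : W → MvPolynomial (Fin q) K) (h' : W → MvPolynomial (Fin q) (ZMod p)) (hh : ∀ w, (h w).IsHomogeneous (d w))
    (hr : ∀ w e, Rd π ((h w).coeff e) ((h' w).coeff e)) (y : W → K) (y' : W → ZMod p) (hy : ∀ w, Rd π (y w) (y' w))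
    (hy' : ∀ w, y' w ≠ 0) (α : K) (hα : α ≠ 0)
    (hN : ∀ w, Algebra.norm K (MvPolynomial.aeval x (h w)) = α ^ d w * y w) {V : Type}
    (g : V → MvPolynomial (Fin q) K) (g' : V → MvPolynomial (Fin q) (ZMod p)) (hg : ∀ v, ∃ n, (g v).IsHomogeneous n)
    (hgr : ∀ v e, Rd π ((g v).coeff e) ((g' v).coeff e)) (hg0 : ∀ v, MvPolynomial.aeval x (g v) = 0) :
    ∃ (z : Fin (Module.finrank K L) → Fin q → Kb p) (s : Equiv.Perm (Fin (Module.finrank K L))), (∀ k, z k ≠ 0) ∧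
      (∀ k t, z k t ^ p = z (s k) t) ∧ (∀ k v, MvPolynomial.aeval (z k) (g' v) = 0) ∧
        ((∃ μ : ZMod p, μ ≠ 0 ∧ ∀ w, ∏ k, MvPolynomial.aeval (z k) (h' w) =
          algebraMap (ZMod p) (Kb p) (μ ^ d w * y' w)) ∨
            ∀ w, ∏ k, MvPolynomial.aeval (z k) (h' w) = 0) := by
  obtain ⟨lam, x', θ, s, hlam, hx', hne, hθ, hs, hN'⟩ := LVN.red_vec (LVX.ro π) x hx
  have hro : ∀ c : 𝓞 K, Rd π (c : K) (LVX.ro π c) := fun c => ⟨LVX.int_mem π c, rfl⟩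
  refine ⟨fun k t => θ k (x' t), s, fun k h0 => ?_, fun k t => hs k (x' t), fun k v => ?_, ?_⟩
  · obtain ⟨i, hi⟩ := hne k
    exact hi (congrFun h0 i)
  · obtain ⟨n, hn⟩ := hg v
    exact LVN.val_zero π x lam x' hx' (θ k) (hθ k) (g v) (g' v) (hgr v) hn (hg0 v)
  have hval := fun w => LVN.val_norm π x lam x' hx' θ hθ hN' (h w) (h' w) (hr w) (hh w) α (y w) (hN w)
  obtain ⟨u, hu'⟩ : ∃ u : K, u = Algebra.norm K lam * α := ⟨_, rfl⟩
  rw [← hu'] at hval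
  have hu : u ≠ 0 := by
    rw [hu']
    exact mul_ne_zero (Algebra.norm_ne_zero_iff.2 hlam) hα
  have hcan : ∀ (w : W) (c a : 𝓞 K) (r : ZMod p), LVX.ro π c ≠ 0 →
      LVX.ro π a = LVX.ro π c ^ Module.finrank K L * r →
      algebraMap (ZMod p) (AlgebraicClosure (ZMod p)) (LVX.ro π a) =
        algebraMap (ZMod p) (AlgebraicClosure (ZMod p)) (LVX.ro π c) ^ Module.finrank K L *
          ∏ k, MvPolynomial.aeval (fun i => θ k (x' i)) (h' w) →
      ∏ k, MvPolynomial.aeval (fun i => θ k (x' i)) (h' w) = algebraMap (ZMod p) (Kb p) r := by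
    intro w c a r hc h3 h4
    rw [h3, map_mul, map_pow] at h4
    have h5 : algebraMap (ZMod p) (AlgebraicClosure (ZMod p)) (LVX.ro π c) ^ Module.finrank K L ≠ 0 :=
      pow_ne_zero _ (fun h6 => hc ((map_eq_zero _).1 h6))
    exact (mul_left_cancel₀ h5 h4).symm
  by_cases h1 : u ∈ π.V
  · have hμ : Rd π u (π.ρ ⟨u, h1⟩) := ⟨h1, rfl⟩
    have hkey : ∀ (w : W) (c a : 𝓞 K), (a : K) = (c : K) ^ Module.finrank K L * u ^ d w * y w →
        LVX.ro π a = LVX.ro π c ^ Module.finrank K L * ((π.ρ ⟨u, h1⟩) ^ d w * y' w) := by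
      intro w c a ha
      have h4 := hro a
      rw [ha] at h4
      rw [← mul_assoc]
      exact h4.unique ((((hro c).pow _).mul (hμ.pow _)).mul (hy w))
    by_cases h2 : u⁻¹ ∈ π.V
    · left
      refine ⟨π.ρ ⟨u, h1⟩, hμ.ne hu h2, fun w => ?_⟩
      obtain ⟨c, a, hc, ha, hprod⟩ := hval w
      exact hcan w c a _ hc (hkey w c a ha) hprod
    · right
      intro w
      obtain ⟨c, a, hc, ha, hprod⟩ := hval w
      have h3 := hkey w c a ha
      rw [π.ker ⟨u, h1⟩ h2, zero_pow (Nat.one_le_iff_ne_zero.1 (hd w)), zero_mul] at h3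
      have h4 := hcan w c a _ hc h3 hprod
      rw [map_zero] at h4
      exact h4
  · right
    intro w
    exfalso
    obtain ⟨c, a, hc, ha, hprod⟩ := hval w
    have h2 : u⁻¹ ∈ π.V := (π.V.mem_or_inv_mem u).resolve_left h1
    have h3 : Rd π u⁻¹ 0 := by
      refine ⟨h2, π.ker ⟨u⁻¹, h2⟩ ?_⟩
      show (u⁻¹)⁻¹ ∉ π.V
      rw [inv_inv]
      exact h1
    have h4 : (u⁻¹) ^ d w * (a : K) = (c : K) ^ Module.finrank K L * y w := by
      rw [ha, inv_pow]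
      have h5 : u ^ d w ≠ 0 := pow_ne_zero _ hu
      field_simp
    have h5 := (h3.pow (d w)).mul (hro a)
    rw [h4, zero_pow (Nat.one_le_iff_ne_zero.1 (hd w)), zero_mul] at h5
    have h6 := (((hro c).pow (Module.finrank K L)).mul (hy w)).unique h5
    exact mul_ne_zero (pow_ne_zero _ hc) (hy' w) h6

end LVF
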