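import Pool.Agent.Lib.MP_17a322_ntLF.Defs

/-! Leaf N14: the Chow form of a Frobenius stable family; scaling one member.

PROOF.  `chow`: the polynomial `Ψ = ∏ k, lf (z k)` over `Kb p` is mapped to itself by the Frobenius map of the coefficients:
`MvPolynomial.map (frobenius (Kb p) p) (lf (z k)) = lf (fun t => z k t ^ p) = lf (z (s k))` (unfold `lf`; `map_sum`, `MvPolynomial.map_C`, `MvPolynomial.map_X`), and
`∏ k, lf (z (s k)) = ∏ k, lf (z k)` (`Equiv.prod_comp`).  So every coefficient `c` of `Ψ` has `c ^ p = c`, and is in the image of `ZMod p`: the polynomial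
`X ^ p - X` has at most `p` roots in `Kb p` and the `p` elements `algebraMap (ZMod p) (Kb p) a` are roots (`ZMod.pow_card`), injectivity of
`algebraMap` (see `FiniteField`-lemmas, e.g. `FiniteField.roots_X_pow_card_sub_X`, or
`(Polynomial.X ^ p - X).roots = univ.map (algebraMap ..)`); `Φ` is obtained with chosen preimages of the coefficients
(`MvPolynomial.mem_range_map_iff_coeffs_subset` or `MvPolynomial.mem_map_range`, or `∑ e ∈ Ψ.support, monomial e (a e)`).
`scal`: `aeval (c • z) h = c ^ n * aeval z h` for homogeneous `h` of degree `n`, `lf (c • z) = C c * lf z`.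
-/

namespace LVF

open MvPolynomial

theorem fix_p {p : ℕ} [Fact p.Prime] (c : Kb p) (hc : c ^ p = c) : ∃ a : ZMod p, algebraMap (ZMod p) (Kb p) a = c := by
  obtain ⟨n, hn⟩ := (mem_bot_iff_intCast p (Kb p)).1
    ((Subfield.mem_bot_iff_pow_eq_self (Kb p) p).2 hc)
  exact ⟨(n : ZMod p), by rw [map_intCast, hn]⟩

theorem chow {p : ℕ} [Fact p.Prime] {q m : ℕ} (z : Fin m → Fin q → Kb p) (s : Equiv.Perm (Fin m))
    (hs : ∀ k t, z k t ^ p = z (s k) t) :
    ∃ Φ : MvPolynomial (Fin q) (ZMod p), MvPolynomial.map (algebraMap (ZMod p) (Kb p)) Φ = ∏ k, lf (z k) := by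
  have h1 : MvPolynomial.map (frobenius (Kb p) p) (∏ k, lf (z k)) = ∏ k, lf (z k) := by
    rw [map_prod, ← Equiv.prod_comp s fun k => lf (z k)]
    refine Finset.prod_congr rfl fun k _ => ?_
    unfold lf
    rw [map_sum]
    refine Finset.sum_congr rfl fun t _ => ?_
    rw [map_mul, MvPolynomial.map_C, MvPolynomial.map_X, frobenius_def, hs k t]
  refine Set.mem_range.1 (MvPolynomial.mem_range_map_iff_coeffs_subset.2 fun c hc => ?_)
  obtain ⟨e, _, rfl⟩ := MvPolynomial.mem_coeffs_iff.1 (Finset.mem_coe.1 hc)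
  have h2 := congrArg (MvPolynomial.coeff e) h1
  rw [MvPolynomial.coeff_map, frobenius_def] at h2
  obtain ⟨a, ha⟩ := fix_p _ h2
  exact ⟨a, ha⟩

theorem scal_aeval {p : ℕ} [Fact p.Prime] {q : ℕ} (c : Kb p) (z : Fin q → Kb p) (h : MvPolynomial (Fin q) (ZMod p)) {n : ℕ}
    (hn : h.IsHomogeneous n) : aeval (c • z) h = c ^ n * aeval z h := by
  rw [MvPolynomial.aeval_def, MvPolynomial.aeval_def, MvPolynomial.eval₂_eq', MvPolynomial.eval₂_eq', Finset.mul_sum]
  refine Finset.sum_congr rfl fun e he => ?_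
  have h1 : ∑ t, e t = n := by
    have h2 := hn.degree_eq_sum_deg_support he
    rw [h2]
    refine (Finset.sum_subset (Finset.subset_univ _) fun t _ ht => ?_).symm
    exact Finsupp.notMem_support_iff.1 ht
  have h3 : ∏ t, (c • z) t ^ e t = c ^ n * ∏ t, z t ^ e t := by
    rw [← h1, ← Finset.prod_pow_eq_pow_sum, ← Finset.prod_mul_distrib]
    refine Finset.prod_congr rfl fun t _ => ?_
    rw [Pi.smul_apply, smul_eq_mul, mul_pow]
  rw [h3]
  ring

theorem scal_lf {p : ℕ} [Fact p.Prime] {q : ℕ} (c : Kb p) (z : Fin q → Kb p) : lf (c • z) = C c * lf z := by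
  unfold lf
  rw [Finset.mul_sum]
  refine Finset.sum_congr rfl fun t _ => ?_
  rw [Pi.smul_apply, smul_eq_mul, map_mul, mul_assoc]

end LVF
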