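import Pool.Agent.Lib.MP_17a322_ntLF.N.N1

/-! Leaf N2: the multiplicities of the norm of an ideal.

PROOF.  Put `P = v.maximalIdeal.asIdeal`, `q = absNorm P`, and for an ideal `I ≠ ⊥` of `𝓞 L`
`A I = q ^ multiplicity P (relNorm (𝓞 K) I)`, `B I = ∏ w ∈ fib L v, absNorm Q_w ^ multiplicity Q_w I`.  Both are multiplicative on nonzero
ideals: `Ideal.relNorm` is multiplicative (`map_mul`) and nonzero on nonzero ideals (`Ideal.relNorm_eq_bot_iff`), and
`multiplicity_mul (prime) (finite)` (finiteness: `FiniteMultiplicity.of_prime_left` or `FiniteMultiplicity` of a nonzero element of a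
`WfDvdMonoid`).  Both are `1` for `I = ⊤ = 1`.  By `UniqueFactorizationMonoid.induction_on_prime` (or `prod_normalizedFactors_eq_self` and
`Multiset.prod_induction`) it is enough to compare them at a nonzero prime `Q` of `𝓞 L`: let `w` be the place of `Q`
(`FinitePlace.mk ⟨Q, _, _⟩`, `FinitePlace.maximalIdeal_mk`).  `relNorm (𝓞 K) Q = P' ^ f`, `P' = Q.under (𝓞 K) = (bel K w).maximalIdeal.asIdeal`
(`Ideal.relNorm_eq_pow_of_isMaximal`).  If `bel K w = v`: `A Q = q ^ f = absNorm Q` (`absNorm_pow`; `multiplicity_pow_self_of_prime`) and in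
`B Q` the factor of `w` is `absNorm Q ^ 1` and the factors of `w' ≠ w` are `1` (`Q_w'` does not divide `Q_w`: both are maximal and
`FinitePlace.maximalIdeal_injective`), so `B Q = absNorm Q`.  If `bel K w ≠ v`: `A Q = 1` (`P` does not divide `P' ^ f`) and `w ∉ fib L v`,
so all factors of `B Q` are `1`.
-/

namespace LVN

open NumberField

private theorem N2_prime {K : Type} [Field K] [NumberField K] (v : FinitePlace K) : Prime v.maximalIdeal.asIdeal :=
  v.maximalIdeal.prime

private theorem N2_mul {K : Type} [Field K] [NumberField K] (v : FinitePlace K) (I J : Ideal (𝓞 K)) (hI : I ≠ ⊥) (hJ : J ≠ ⊥) :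
    multiplicity v.maximalIdeal.asIdeal (I * J) =
      multiplicity v.maximalIdeal.asIdeal I + multiplicity v.maximalIdeal.asIdeal J := by
  refine multiplicity_mul (N2_prime v) (FiniteMultiplicity.of_not_isUnit (N2_prime v).not_isUnit ?_)
  exact mul_ne_zero hI hJ

private theorem N2_top {K : Type} [Field K] [NumberField K] (v : FinitePlace K) :
    multiplicity v.maximalIdeal.asIdeal (⊤ : Ideal (𝓞 K)) = 0 := by
  rw [multiplicity_eq_zero, Ideal.dvd_iff_le]
  intro h
  exact v.maximalIdeal.isPrime.ne_top (top_le_iff.1 h)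

private theorem N2_ne {K : Type} [Field K] [NumberField K] (v v' : FinitePlace K) (h : v ≠ v') (n : ℕ) :
    multiplicity v.maximalIdeal.asIdeal (v'.maximalIdeal.asIdeal ^ n) = 0 := by
  rw [multiplicity_eq_zero]
  intro hd
  have h1 := (N2_prime v).dvd_of_dvd_pow hd
  rw [Ideal.dvd_iff_le] at h1
  have hm : v'.maximalIdeal.asIdeal.IsMaximal := v'.maximalIdeal.isMaximal
  have h2 := hm.eq_of_le v.maximalIdeal.isPrime.ne_top h1
  exact h (FinitePlace.maximalIdeal_injective (IsDedekindDomain.HeightOneSpectrum.ext h2)).symm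

private theorem N2_place {K L : Type} [Field K] [NumberField K] [Field L] [NumberField L] [Algebra K L] (v : FinitePlace K)
    (w : FinitePlace L) :
    (Ideal.absNorm v.maximalIdeal.asIdeal : ℝ) ^ multiplicity v.maximalIdeal.asIdeal
        (Ideal.relNorm (𝓞 K) w.maximalIdeal.asIdeal) =
      ∏ w' ∈ fib L v, (Ideal.absNorm w'.maximalIdeal.asIdeal : ℝ) ^
        multiplicity w'.maximalIdeal.asIdeal w.maximalIdeal.asIdeal := by
  classical
  have h1 : ∀ w' ∈ fib L v, w' ≠ w → (Ideal.absNorm w'.maximalIdeal.asIdeal : ℝ) ^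
        multiplicity w'.maximalIdeal.asIdeal w.maximalIdeal.asIdeal = 1 := by
    intro w' _ hne
    have := N2_ne w' w hne 1
    rw [pow_one] at this
    rw [this, pow_zero]
  have : w.maximalIdeal.asIdeal.IsMaximal := w.maximalIdeal.isMaximal
  have : (bel K w).maximalIdeal.asIdeal.IsMaximal := (bel K w).maximalIdeal.isMaximal
  have : w.maximalIdeal.asIdeal.LiesOver (bel K w).maximalIdeal.asIdeal := ⟨bel_asIdeal K w⟩
  have h2 : Ideal.relNorm (𝓞 K) w.maximalIdeal.asIdeal =
      (bel K w).maximalIdeal.asIdeal ^ w.maximalIdeal.asIdeal.inertiaDeg (𝓞 K) :=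
    Ideal.relNorm_eq_pow_of_isMaximal _ _
  rw [h2]
  by_cases hw : bel K w = v
  · have hmem : w ∈ fib L v := (mem_fib L v w).2 hw
    rw [Finset.prod_eq_single_of_mem w hmem h1, multiplicity_self, pow_one, absNorm_pow (K := K) w, hw,
      multiplicity_pow_self_of_prime (N2_prime v)]
    push_cast
    rfl
  · rw [N2_ne v (bel K w) (Ne.symm hw), pow_zero]
    symm
    refine Finset.prod_eq_one fun w' hw' => h1 w' hw' ?_
    rintro rfl
    exact hw ((mem_fib L v _).1 hw')

theorem rel_mult {K L : Type} [Field K] [NumberField K] [Field L] [NumberField L] [Algebra K L] (v : FinitePlace K)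
    (I : Ideal (𝓞 L)) (hI : I ≠ ⊥) :
    (Ideal.absNorm v.maximalIdeal.asIdeal : ℝ) ^ multiplicity v.maximalIdeal.asIdeal (Ideal.relNorm (𝓞 K) I) =
      ∏ w ∈ fib L v, (Ideal.absNorm w.maximalIdeal.asIdeal : ℝ) ^ multiplicity w.maximalIdeal.asIdeal I := by
  classical
  have key : I ≠ ⊥ → (Ideal.absNorm v.maximalIdeal.asIdeal : ℝ) ^ multiplicity v.maximalIdeal.asIdeal (Ideal.relNorm (𝓞 K) I) =
      ∏ w ∈ fib L v, (Ideal.absNorm w.maximalIdeal.asIdeal : ℝ) ^ multiplicity w.maximalIdeal.asIdeal I := by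
    refine UniqueFactorizationMonoid.induction_on_prime I ?_ ?_ ?_
    · intro h
      exact absurd rfl h
    · intro J hJ _
      rw [Ideal.isUnit_iff] at hJ
      subst hJ
      rw [Ideal.relNorm_top, N2_top, pow_zero]
      symm
      refine Finset.prod_eq_one fun w _ => ?_
      rw [N2_top, pow_zero]
    · intro J Q hJ hQ ih _
      have hJ' : J ≠ ⊥ := hJ
      have hQ' : Q ≠ ⊥ := hQ.ne_zero
      have hQp : Q.IsPrime := Ideal.isPrime_of_prime hQ
      let w : FinitePlace L := FinitePlace.mk ⟨Q, hQp, hQ'⟩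
      have hw : w.maximalIdeal.asIdeal = Q := by
        show (FinitePlace.mk ⟨Q, hQp, hQ'⟩ : FinitePlace L).maximalIdeal.asIdeal = Q
        rw [FinitePlace.maximalIdeal_mk]
      have hp := N2_place v w
      rw [hw] at hp
      rw [map_mul, N2_mul v _ _ (fun h => hQ' (Ideal.relNorm_eq_bot_iff.1 h)) (fun h => hJ' (Ideal.relNorm_eq_bot_iff.1 h)),
        pow_add, hp, ih hJ', ← Finset.prod_mul_distrib]
      refine Finset.prod_congr rfl fun w' _ => ?_
      rw [N2_mul w' _ _ hQ' hJ', pow_add]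
  exact key hI

end LVN
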