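import Pool.Agent.Lib.MP_17a322_ntLF.N.N2

/-! Leaf N3: the absolute value of the norm of an element.

PROOF.  Both sides are multiplicative in `z ≠ 0` (`map_mul`, `Finset.prod_mul_distrib`; for `z = a / b`: `map_div₀`, `Finset.prod_div_distrib`),
and `z = a / b` with `a`, `b` in `𝓞 L`, nonzero (`IsFractionRing.div_surjective`), so let `z ∈ 𝓞 L`, `z ≠ 0`.  The norm of `z` is in `𝓞 K`:
`Algebra.intNorm (𝓞 K) (𝓞 L) z`, and `Algebra.algebraMap_intNorm (A := 𝓞 K) (K := K) (L := L) (B := 𝓞 L) z` says that its image in `K` is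
`Algebra.norm K (z : L)`.  `Ideal.relNorm_singleton : relNorm (𝓞 K) (span {z}) = span {intNorm z}`.  By
`FinitePlace.apply_mul_absNorm_pow_eq_one` for `v` and `intNorm z ≠ 0` (`Algebra.norm_ne_zero_iff`, or the ideal is not `⊥`), and for the
`w ∈ fib L v` and `z`: `v (N z) = 1 / q ^ multiplicity P (span {intNorm z})` and `w z = 1 / absNorm Q_w ^ multiplicity Q_w (span {z})`, so that
the claim is `rel_mult v (span {z})`.
-/

namespace LVN

open NumberField

private theorem N3_int {K L : Type} [Field K] [NumberField K] [Field L] [NumberField L] [Algebra K L] (v : FinitePlace K)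
    (z : 𝓞 L) (hz : z ≠ 0) : v (Algebra.norm K (z : L)) = ∏ w ∈ fib L v, w (z : L) := by
  have hz' : (z : L) ≠ 0 := by
    intro h
    exact hz (RingOfIntegers.coe_eq_zero_iff.1 h)
  have h1 : ((Algebra.intNorm (𝓞 K) (𝓞 L) z : 𝓞 K) : K) = Algebra.norm K (z : L) :=
    Algebra.algebraMap_intNorm (A := 𝓞 K) (K := K) (L := L) (B := 𝓞 L) z
  have hn : Algebra.intNorm (𝓞 K) (𝓞 L) z ≠ 0 := by
    intro h
    rw [h] at h1
    have h2 : Algebra.norm K (z : L) = 0 := by
      rw [← h1]
      rfl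
    exact (Algebra.norm_ne_zero_iff.2 hz') h2
  have hI : Ideal.span {z} ≠ ⊥ := mt Submodule.span_singleton_eq_bot.mp hz
  have h3 := rel_mult v (Ideal.span {z}) hI
  rw [Ideal.relNorm_singleton] at h3
  have h4 := FinitePlace.apply_mul_absNorm_pow_eq_one v hn
  rw [h3, h1] at h4
  rw [eq_inv_of_mul_eq_one_left h4, ← Finset.prod_inv_distrib]
  refine Finset.prod_congr rfl fun w _ => ?_
  exact (eq_inv_of_mul_eq_one_left (FinitePlace.apply_mul_absNorm_pow_eq_one w hz)).symm

theorem norm_place {K L : Type} [Field K] [NumberField K] [Field L] [NumberField L] [Algebra K L] (v : FinitePlace K)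
    (z : L) (hz : z ≠ 0) : v (Algebra.norm K z) = ∏ w ∈ fib L v, w z := by
  obtain ⟨a, b, hb, rfl⟩ := IsFractionRing.div_surjective (A := 𝓞 L) z
  have hb0 : b ≠ 0 := nonZeroDivisors.ne_zero hb
  have ha0 : a ≠ 0 := by
    rintro rfl
    apply hz
    rw [map_zero, zero_div]
  have h1 := N3_int v a ha0
  have h2 := N3_int v b hb0
  have e : v (Algebra.norm K (algebraMap (𝓞 L) L a / algebraMap (𝓞 L) L b)) =
      v (Algebra.norm K (a : L)) / v (Algebra.norm K (b : L)) := by
    have hb1 : (algebraMap (𝓞 L) L b) ≠ 0 := fun h => hb0 (RingOfIntegers.coe_eq_zero_iff.1 h)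
    have hb2 : Algebra.norm K (algebraMap (𝓞 L) L b) ≠ 0 := Algebra.norm_ne_zero_iff.2 hb1
    have h3 : Algebra.norm K (algebraMap (𝓞 L) L a / algebraMap (𝓞 L) L b) =
        Algebra.norm K (algebraMap (𝓞 L) L a) / Algebra.norm K (algebraMap (𝓞 L) L b) := by
      rw [eq_div_iff hb2, ← map_mul, div_mul_cancel₀ _ hb1]
    rw [h3]
    exact map_div₀ v _ _
  rw [e, h1, h2, ← Finset.prod_div_distrib]
  refine Finset.prod_congr rfl fun w _ => ?_
  exact (map_div₀ w _ _).symm

end LVN
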