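import Mathlib

/-! Leaf N5: a vector can be made integral everywhere and primitive at a finite set of places.

PROOF.  There is `c : 𝓞 L`, `c ≠ 0`, such that `c x i = x1 i ∈ 𝓞 L` for all `i` (`IsLocalization.exist_integer_multiples_of_finset`).  If
`T = ∅` take `lam = c`, `x' = x1`.  Otherwise let `J = span (range x1) ≠ ⊥`, `b ∈ J`, `b ≠ 0` (some `x1 i`), `J ∣ span {b}`
(`Ideal.dvd_span_singleton` or `Ideal.dvd_iff_le`): `span {b} = J * J'`, `J' ≠ ⊥`.  Let `C = ∏ w ∈ T, w.maximalIdeal.asIdeal ≠ ⊥`.  By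
`IsDedekindDomain.exists_sup_span_eq` (for `J' * C ≤ J'`, `J' * C ≠ 0`) there is `a : 𝓞 L` with `J' * C ⊔ span {a} = J'`; in particular
`a ∈ J'`.  `a * x1 i ∈ J' * J = span {b}`: `a * x1 i = b * x' i` (`Ideal.mem_span_singleton'`), which defines `x' i ∈ 𝓞 L`, and
`lam = a c / b`, `lam * x i = a x1 i / b = x' i`.  For `w ∈ T`, `Q = w.maximalIdeal.asIdeal`: suppose that `x' i ∈ Q` for all `i`.  Then
`a * x1 i ∈ span {b} * Q = J' * J * Q` for all `i`, `span {a} * J ≤ (J' * Q) * J` and so `J' * Q ∣ span {a}` (`Ideal.dvd_iff_le`,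
`mul_dvd_mul_iff_right`), `a ∈ J' * Q`, and `J' = J' * C ⊔ span {a} ≤ J' * Q` (`C ≤ Q`, `Finset.dvd_prod_of_mem`), so
`J' * Q ∣ J' * 1`, `Q ∣ 1`, a contradiction to `Q ≠ ⊤`.  So some `x' i ∉ Q`, that is `w (x' i) = 1` (`FinitePlace.norm_eq_one_iff_notMem` with
`FinitePlace.norm_embedding_eq w`).  `lam ≠ 0`: `T` is nonempty and `w (lam * x i) = 1` for some `i`.
-/

namespace LVN

open NumberField

theorem semi {L : Type} [Field L] [NumberField L] {ι : Type} [Fintype ι] (x : ι → L) (hx : x ≠ 0)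
    (T : Finset (FinitePlace L)) : ∃ (lam : L) (x' : ι → 𝓞 L), lam ≠ 0 ∧ (∀ i, (x' i : L) = lam * x i) ∧
      ∀ w ∈ T, ∃ i, w (x' i : L) = 1 := by
  classical
  obtain ⟨c0, hc0⟩ := IsLocalization.exist_integer_multiples (nonZeroDivisors (𝓞 L)) Finset.univ x
  choose x1 hx1 using fun i => hc0 i (Finset.mem_univ i)
  have hcne : (c0 : 𝓞 L) ≠ 0 := nonZeroDivisors.coe_ne_zero c0
  have hcne' : ((c0 : 𝓞 L) : L) ≠ 0 := by
    rw [Ne, FaithfulSMul.algebraMap_eq_zero_iff]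
    exact hcne
  have hx1' : ∀ i, ((x1 i : 𝓞 L) : L) = ((c0 : 𝓞 L) : L) * x i := by
    intro i
    have h := hx1 i
    rw [Algebra.smul_def] at h
    exact h
  rcases T.eq_empty_or_nonempty with hT | hT
  · subst hT
    exact ⟨((c0 : 𝓞 L) : L), x1, hcne', hx1', by simp⟩
  obtain ⟨i0, hi0⟩ : ∃ i, x i ≠ 0 := by
    by_contra hcon
    push Not at hcon
    exact hx (funext hcon)
  have hx1ne : x1 i0 ≠ 0 := by
    intro h
    have h2 := hx1' i0
    rw [h] at h2
    exact (mul_ne_zero hcne' hi0) (h2.symm.trans (map_zero (algebraMap (𝓞 L) L)))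
  set J : Ideal (𝓞 L) := Ideal.span (Set.range x1) with hJdef
  have hx1J : ∀ i, x1 i ∈ J := fun i => Ideal.subset_span ⟨i, rfl⟩
  have hJne : J ≠ 0 := by
    intro h
    have h2 := hx1J i0
    rw [h] at h2
    exact hx1ne h2
  obtain ⟨J', hJ'⟩ : J ∣ Ideal.span {x1 i0} := Ideal.dvd_iff_le.2 ((Ideal.span_singleton_le_iff_mem _).2 (hx1J i0))
  have hbne : Ideal.span {x1 i0} ≠ (0 : Ideal (𝓞 L)) := by
    rw [Ne, Ideal.zero_eq_bot, Ideal.span_singleton_eq_bot]
    exact hx1ne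
  have hJ'ne : J' ≠ 0 := by
    intro h
    rw [h, mul_zero] at hJ'
    exact hbne hJ'
  set C : Ideal (𝓞 L) := ∏ w ∈ T, w.maximalIdeal.asIdeal with hCdef
  have hCne : C ≠ 0 := Finset.prod_ne_zero_iff.2 fun w _ => w.maximalIdeal.ne_bot
  obtain ⟨a, ha⟩ := IsDedekindDomain.exists_sup_span_eq (I := J' * C) (J := J') Ideal.mul_le_left (mul_ne_zero hJ'ne hCne)
  have haJ' : a ∈ J' := by
    rw [← ha]
    exact Ideal.mem_sup_right (Ideal.mem_span_singleton_self a)
  have hax : ∀ i, ∃ y : 𝓞 L, y * x1 i0 = a * x1 i := by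
    intro i
    have h : a * x1 i ∈ Ideal.span {x1 i0} := by
      rw [hJ', mul_comm J J']
      exact Ideal.mul_mem_mul haJ' (hx1J i)
    exact Ideal.mem_span_singleton'.1 h
  choose x' hx' using hax
  have hkey : ∀ w ∈ T, ∃ i, w (x' i : L) = 1 := by
    intro w hw
    by_contra hcon
    push Not at hcon
    have hmem : ∀ i, x' i ∈ w.maximalIdeal.asIdeal := by
      intro i
      by_contra hni
      apply hcon i
      rw [← FinitePlace.norm_embedding_eq w]
      exact (FinitePlace.norm_eq_one_iff_notMem L w.maximalIdeal (x' i)).2 hni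
    have hle : Ideal.span {a} * J ≤ (J' * w.maximalIdeal.asIdeal) * J := by
      rw [hJdef, Ideal.span_mul_span', Ideal.span_le, ← hJdef]
      rintro z ⟨u, hu, v, ⟨i, rfl⟩, rfl⟩
      rw [Set.mem_singleton_iff] at hu
      subst hu
      change u * x1 i ∈ _
      rw [← hx' i]
      have e : J' * w.maximalIdeal.asIdeal * J = w.maximalIdeal.asIdeal * (J * J') := by ring
      rw [e, ← hJ']
      exact Ideal.mul_mem_mul (hmem i) (Ideal.mem_span_singleton_self _)
    have hdvd : J' * w.maximalIdeal.asIdeal ∣ Ideal.span {a} :=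
      (mul_dvd_mul_iff_right hJne).1 (Ideal.dvd_iff_le.2 hle)
    have h1 : J' * w.maximalIdeal.asIdeal ∣ J' := by
      rw [Ideal.dvd_iff_le]
      calc J' = J' * C ⊔ Ideal.span {a} := ha.symm
        _ ≤ J' * w.maximalIdeal.asIdeal := by
          refine sup_le ?_ (Ideal.dvd_iff_le.1 hdvd)
          exact Ideal.dvd_iff_le.1 (mul_dvd_mul_left J' (Finset.dvd_prod_of_mem _ hw))
    have h2 : w.maximalIdeal.asIdeal ∣ 1 := by
      have h3 : J' * w.maximalIdeal.asIdeal ∣ J' * 1 := by rwa [mul_one]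
      exact (mul_dvd_mul_iff_left hJ'ne).1 h3
    have h4 : w.maximalIdeal.asIdeal = ⊤ := by
      have h5 := Ideal.dvd_iff_le.1 h2
      rw [Ideal.one_eq_top] at h5
      exact top_le_iff.1 h5
    exact w.maximalIdeal.isPrime.ne_top h4
  have hbL : ((x1 i0 : 𝓞 L) : L) ≠ 0 := by
    rw [Ne, FaithfulSMul.algebraMap_eq_zero_iff]
    exact hx1ne
  have hval : ∀ i, (x' i : L) = ((a : L) * ((c0 : 𝓞 L) : L) / ((x1 i0 : 𝓞 L) : L)) * x i := by
    intro i
    have h : (x' i : L) * (x1 i0 : L) = (a : L) * (x1 i : L) := by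
      rw [← map_mul, ← map_mul, hx' i]
    rw [hx1' i] at h
    field_simp
    linear_combination h
  refine ⟨(a : L) * ((c0 : 𝓞 L) : L) / ((x1 i0 : 𝓞 L) : L), x', ?_, hval, hkey⟩
  intro h0
  obtain ⟨w, hw⟩ := hT
  obtain ⟨i, hi⟩ := hkey w hw
  rw [hval i, h0, zero_mul, map_zero] at hi
  exact zero_ne_one hi

end LVN
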