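import Mathlib

/-! Leaf N6: extension of a residue map to a larger number field.

PROOF.  The kernel `P` of `r` is a prime ideal of `𝓞 K` (`RingHom.ker_isPrime`), and there is a prime `Q` of `𝓞 M` with `Q.comap (algebraMap (𝓞 K) (𝓞 M)) = P`
(`Ideal.exists_ideal_over_prime_of_isIntegral` with `⊥`, or `Ideal.exists_ideal_liesOver_..`; `𝓞 M` is integral over `𝓞 K` and the map is
injective).  Let `F = AlgebraicClosure (ZMod p)`.  `F` is an algebra over `𝓞 K ⧸ P` by `r` (`Ideal.Quotient.lift`/ `RingHom.kerLift`), and the map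
`𝓞 K ⧸ P → F` is injective.  `𝓞 M ⧸ Q` is a domain, integral over `𝓞 K ⧸ P`; embed it into `F`: `𝓞 K ⧸ P` is isomorphic to the field `ZMod p`
(`r` is surjective: `ZMod.ringHom_surjective`; `RingHom.quotientKerEquivOfSurjective`), so `𝓞 M ⧸ Q` is a domain which is integral over a
field, hence a field (`isField_of_isIntegral_of_isField'` or `Q` is maximal), algebraic over it, and `IsAlgClosed.lift` gives the
embedding.  SHORT WAY: make `𝓞 M ⧸ Q` a `ZMod p`-algebra (it has characteristic `p` since `p ∈ Q`: `ZMod.algebra`), it is algebraic over `ZMod p`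
(integral over `ℤ`: every element of `𝓞 M` is a zero of a monic integral polynomial), `𝓞 M ⧸ Q` is a field, and `IsAlgClosed.lift :
(𝓞 M ⧸ Q) →ₐ[ZMod p] F`; `θ` is the composition with `Ideal.Quotient.mk Q`.  For `a : 𝓞 K`: `a - n ∈ P` for an integer `n` with `(n : ZMod p) = r a`
(`ZMod.intCast_surjective`), so `a - n ∈ Q` (image) and `θ a = θ n = n = algebraMap (r a)`.
-/

namespace LVN

open NumberField

theorem ext_hom {K M : Type} [Field K] [NumberField K] [Field M] [NumberField M] [Algebra K M] {p : ℕ} [Fact p.Prime]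
    (r : 𝓞 K →+* ZMod p) : ∃ θ : 𝓞 M →+* AlgebraicClosure (ZMod p),
      ∀ a : 𝓞 K, θ (algebraMap (𝓞 K) (𝓞 M) a) = algebraMap (ZMod p) (AlgebraicClosure (ZMod p)) (r a) := by
  have hr : Function.Surjective r := ZMod.ringHom_surjective r
  have hP : (RingHom.ker r).IsMaximal := RingHom.ker_isMaximal_of_surjective r hr
  obtain ⟨Q, -, hQ, hQP⟩ := Ideal.exists_ideal_over_prime_of_isIntegral (R := 𝓞 K) (S := 𝓞 M) (RingHom.ker r) ⊥ (by
    intro x hx
    have h1 : algebraMap (𝓞 K) (𝓞 M) x = 0 := hx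
    have h2 : x = 0 := (map_eq_zero_iff _ (FaithfulSMul.algebraMap_injective (𝓞 K) (𝓞 M))).1 h1
    rw [h2]
    exact Ideal.zero_mem _)
  have hQm : Q.IsMaximal := Ideal.isMaximal_of_isIntegral_of_isMaximal_comap (R := 𝓞 K) Q (by rw [hQP]; exact hP)
  obtain ⟨j, hj⟩ : ∃ j : ZMod p →+* 𝓞 M ⧸ Q, ∀ a : 𝓞 K, j (r a) = Ideal.Quotient.mk Q (algebraMap (𝓞 K) (𝓞 M) a) := by
    refine ⟨(Ideal.quotientMap Q (algebraMap (𝓞 K) (𝓞 M)) hQP.ge).comp
      (RingHom.quotientKerEquivOfSurjective hr).symm.toRingHom, fun a => ?_⟩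
    have h1 : (RingHom.quotientKerEquivOfSurjective hr).symm (r a) = Ideal.Quotient.mk (RingHom.ker r) a := by
      rw [RingEquiv.symm_apply_eq]
      rfl
    show Ideal.quotientMap Q (algebraMap (𝓞 K) (𝓞 M)) hQP.ge ((RingHom.quotientKerEquivOfSurjective hr).symm (r a)) = _
    rw [h1, Ideal.quotientMap_mk]
  let _ : Field (𝓞 M ⧸ Q) := Ideal.Quotient.field Q
  let _ : Algebra (ZMod p) (𝓞 M ⧸ Q) := j.toAlgebra
  have halg : Algebra.IsAlgebraic (ZMod p) (𝓞 M ⧸ Q) := by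
    refine ⟨fun x => ?_⟩
    obtain ⟨y, rfl⟩ := Ideal.Quotient.mk_surjective x
    have h1 : IsIntegral ℤ (Ideal.Quotient.mk Q y) :=
      (RingOfIntegers.isIntegral y).map (Ideal.Quotient.mk Q).toIntAlgHom
    exact (h1.tower_top (A := ZMod p)).isAlgebraic
  obtain ⟨f⟩ : Nonempty ((𝓞 M ⧸ Q) →ₐ[ZMod p] AlgebraicClosure (ZMod p)) := ⟨IsAlgClosed.lift⟩
  refine ⟨f.toRingHom.comp (Ideal.Quotient.mk Q), fun a => ?_⟩
  have h2 := f.commutes (r a)
  rw [← h2]
  exact congrArg f (hj a).symm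

end LVN
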